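import Pool.Agent.MP_9caa86_co.H16.Defs

set_option autoImplicit false

open Set

namespace Pool.Agent.MP_9caa86_co.H16

lemma graph_lemma (S : Set (ℝ × ℝ)) (a b : ℝ) (hS : IsCompact S)
    (h1 : ∀ p ∈ S, p.2 ∈ Icc a b) (h2 : ∀ y ∈ Icc a b, ∃ x, (x, y) ∈ S)
    (h3 : ∀ p ∈ S, ∀ q ∈ S, p.2 = q.2 → p = q) :
    ∃ X : ℝ → ℝ, ContinuousOn X (Icc a b) ∧ ∀ p, p ∈ S ↔ p.2 ∈ Icc a b ∧ X p.2 = p.1 := by
  classical
  choose! X hX using h2
  have key : ∀ p, p ∈ S ↔ p.2 ∈ Icc a b ∧ X p.2 = p.1 := by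
    intro p
    constructor
    · intro hp
      refine ⟨h1 p hp, ?_⟩
      have := h3 _ (hX _ (h1 p hp)) p hp rfl
      exact congrArg Prod.fst this
    · rintro ⟨hp, hx⟩
      have := hX _ hp
      rwa [hx] at this
  refine ⟨X, ?_, key⟩
  rw [continuousOn_iff_isClosed]
  intro t ht
  refine ⟨Prod.snd '' (S ∩ Prod.fst ⁻¹' t),
    ((hS.inter_right (ht.preimage continuous_fst)).image continuous_snd).isClosed, ?_⟩
  ext y
  constructor
  · rintro ⟨hy, hy'⟩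
    exact ⟨⟨(X y, y), ⟨hX y hy', hy⟩, rfl⟩, hy'⟩
  · rintro ⟨⟨p, ⟨hp, hpt⟩, rfl⟩, hy'⟩
    refine ⟨?_, hy'⟩
    have := ((key p).1 hp).2
    simpa [this] using hpt

/-- Function form of an upward planar drawing of a bipartite DAG. -/
structure FD {V : Type} (E : V → V → Prop) (px py : V → ℝ) (X : V → V → ℝ → ℝ) : Prop where
  inj : ∀ u v, px u = px v → py u = py v → u = v
  lt : ∀ u v, E u v → py u < py v
  cont : ∀ u v, E u v → ContinuousOn (X u v) (Icc (py u) (py v))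
  start : ∀ u v, E u v → X u v (py u) = px u
  finish : ∀ u v, E u v → X u v (py v) = px v
  avoid : ∀ u v w, E u v → py w ∈ Icc (py u) (py v) → X u v (py w) = px w → w = u ∨ w = v
  nocross : ∀ u v u' v', E u v → E u' v' → (u, v) ≠ (u', v') → ∀ y, y ∈ Icc (py u) (py v) →
    y ∈ Icc (py u') (py v') → X u v y = X u' v' y → (u = u' ∧ y = py u) ∨ (v = v' ∧ y = py v)

lemma FD_of_sets {V : Type} {E : V → V → Prop} (hB : IsBipDAG E) (pos : V → ℝ × ℝ)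
    (C : V → V → Set (ℝ × ℝ)) (hP : Planar E pos C)
    (hlt : ∀ u v, E u v → (pos u).2 < (pos v).2)
    (hc : ∀ u v, E u v → IsCompact (C u v))
    (hu : ∀ u v, E u v → pos u ∈ C u v) (hv : ∀ u v, E u v → pos v ∈ C u v)
    (h1 : ∀ u v, E u v → ∀ p ∈ C u v, p.2 ∈ Icc (pos u).2 (pos v).2)
    (h2 : ∀ u v, E u v → ∀ y ∈ Icc (pos u).2 (pos v).2, ∃ x, (x, y) ∈ C u v)
    (h3 : ∀ u v, E u v → ∀ p ∈ C u v, ∀ q ∈ C u v, p.2 = q.2 → p = q) :
    ∃ X : V → V → ℝ → ℝ, FD E (fun v => (pos v).1) (fun v => (pos v).2) X ∧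
      ∀ u v, E u v → ∀ p, p ∈ C u v ↔ p.2 ∈ Icc (pos u).2 (pos v).2 ∧ X u v p.2 = p.1 := by
  have key : ∀ u v, E u v → ∃ X : ℝ → ℝ, ContinuousOn X (Icc (pos u).2 (pos v).2) ∧
      ∀ p, p ∈ C u v ↔ p.2 ∈ Icc (pos u).2 (pos v).2 ∧ X p.2 = p.1 := fun u v h =>
    graph_lemma _ _ _ (hc u v h) (h1 u v h) (h2 u v h) (h3 u v h)
  choose! X hX1 hX2 using key
  obtain ⟨S, hS⟩ := hB
  refine ⟨X, ⟨fun u v hx hy => hP.1 (Prod.ext hx hy), hlt, hX1, fun u v h => ?_, fun u v h => ?_,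
    fun u v w h hw hx => ?_, fun u v u' v' h h' hne y hy hy' hx => ?_⟩, hX2⟩
  · exact ((hX2 u v h _).1 (hu u v h)).2
  · exact ((hX2 u v h _).1 (hv u v h)).2
  · exact hP.2.1 u v w h ((hX2 u v h _).2 ⟨hw, hx⟩)
  · obtain ⟨w, hw, hw', hp⟩ := hP.2.2 u v u' v' h h' hne (X u v y, y)
      ((hX2 u v h _).2 ⟨hy, rfl⟩) ((hX2 u' v' h' _).2 ⟨hy', hx.symm⟩)
    have hy2 : y = (pos w).2 := congrArg Prod.snd hp
    rcases hw with rfl | rfl <;> rcases hw' with rfl | rfl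
    · exact Or.inl ⟨rfl, hy2⟩
    · exact absurd (hS _ _ h).1 (hS _ _ h').2
    · exact absurd (hS _ _ h').1 (hS _ _ h).2
    · exact Or.inr ⟨rfl, hy2⟩

lemma FD_of_upward {V : Type} {E : V → V → Prop} (hB : IsBipDAG E) (h : UpwardPlanar E) :
    ∃ px py X, FD E px py X := by
  obtain ⟨pos, γ, hγ, hP⟩ := h
  have h01 : (0 : ℝ) ∈ Icc (0 : ℝ) 1 := ⟨le_rfl, zero_le_one⟩
  have h11 : (1 : ℝ) ∈ Icc (0 : ℝ) 1 := ⟨zero_le_one, le_rfl⟩
  obtain ⟨X, hX, -⟩ := FD_of_sets hB pos _ hP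
    (fun u v h => by
      obtain ⟨-, h0, h1, hm⟩ := hγ u v h
      have := hm h01 h11 zero_lt_one
      simpa [h0, h1] using this)
    (fun u v h => isCompact_Icc.image_of_continuousOn (hγ u v h).1)
    (fun u v h => ⟨0, h01, (hγ u v h).2.1⟩) (fun u v h => ⟨1, h11, (hγ u v h).2.2.1⟩)
    (fun u v h => by
      obtain ⟨-, h0, h1, hm⟩ := hγ u v h
      rintro p ⟨τ, hτ, rfl⟩
      rw [← h0, ← h1]
      exact ⟨hm.monotoneOn h01 hτ hτ.1, hm.monotoneOn hτ h11 hτ.2⟩)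
    (fun u v h y hy => by
      obtain ⟨hc, h0, h1, hm⟩ := hγ u v h
      have hc2 : ContinuousOn (fun τ => (γ u v τ).2) (Icc 0 1) := continuous_snd.comp_continuousOn hc
      have := intermediate_value_Icc zero_le_one hc2
      rw [h0, h1] at this
      obtain ⟨τ, hτ, hτy⟩ := this hy
      exact ⟨(γ u v τ).1, τ, hτ, Prod.ext rfl hτy⟩)
    (fun u v h => by
      obtain ⟨-, h0, h1, hm⟩ := hγ u v h
      rintro p ⟨τ, hτ, rfl⟩ q ⟨τ', hτ', rfl⟩ hpq
      rw [hm.injOn hτ hτ' hpq])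
  exact ⟨_, _, X, hX⟩

lemma mem_seg {p q z : ℝ × ℝ} : z ∈ segment ℝ p q ↔
    ∃ θ : ℝ, 0 ≤ θ ∧ θ ≤ 1 ∧ z.1 = (1 - θ) * p.1 + θ * q.1 ∧ z.2 = (1 - θ) * p.2 + θ * q.2 := by
  rw [segment_eq_image]
  constructor
  · rintro ⟨θ, ⟨h0, h1⟩, rfl⟩
    exact ⟨θ, h0, h1, by simp, by simp⟩
  · rintro ⟨θ, h0, h1, hx, hy⟩
    exact ⟨θ, ⟨h0, h1⟩, Prod.ext (by simp [hx]) (by simp [hy])⟩

section chain
variable {k : ℕ} {P : ℕ → ℤ × ℤ} (hP : ∀ i, i < k → (P i).2 < (P (i + 1)).2)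
include hP

lemma chain_mono : ∀ i j, i ≤ j → j ≤ k → (P i).2 ≤ (P j).2 := by
  intro i j hij hj
  induction j, hij using Nat.le_induction with
  | base => exact le_rfl
  | succ j _ ih => exact (ih (by omega)).trans (hP j (by omega)).le

lemma chain_smono : ∀ i j, i < j → j ≤ k → (P i).2 < (P j).2 := fun i j hij hj =>
  (hP i (by omega)).trans_le (chain_mono hP _ _ hij hj)

lemma chain_range : ∀ z ∈ chain k P, z.2 ∈ Icc (toR (P 0)).2 (toR (P k)).2 := by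
  rintro z ⟨i, hi, hz⟩
  obtain ⟨θ, h0, h1, -, hy⟩ := mem_seg.1 hz
  have a1 : ((P 0).2 : ℝ) ≤ (P i).2 := by exact_mod_cast chain_mono hP 0 i (by omega) hi.le
  have a2 : ((P i).2 : ℝ) ≤ (P (i + 1)).2 := by exact_mod_cast (hP i hi).le
  have a3 : ((P (i + 1)).2 : ℝ) ≤ (P k).2 := by exact_mod_cast chain_mono hP _ k hi le_rfl
  simp only [toR] at hy ⊢
  constructor <;> nlinarith

lemma chain_uniq : ∀ p ∈ chain k P, ∀ q ∈ chain k P, p.2 = q.2 → p = q := by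
  have aux : ∀ i j, i ≤ j → j < k → ∀ p q : ℝ × ℝ, p ∈ segment ℝ (toR (P i)) (toR (P (i + 1))) →
      q ∈ segment ℝ (toR (P j)) (toR (P (j + 1))) → p.2 = q.2 → p = q := by
    intro i j hij hj p q hp hq hpq
    obtain ⟨θ, h0, h1, hx, hy⟩ := mem_seg.1 hp
    obtain ⟨θ', h0', h1', hx', hy'⟩ := mem_seg.1 hq
    simp only [toR] at hx hy hx' hy'
    have a1 : ((P i).2 : ℝ) < (P (i + 1)).2 := by exact_mod_cast hP i (by omega)
    have a2 : ((P j).2 : ℝ) < (P (j + 1)).2 := by exact_mod_cast hP j hj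
    rcases hij.eq_or_lt with rfl | hlt
    · have : θ = θ' := by
        have : (θ - θ') * (((P (i + 1)).2 : ℝ) - (P i).2) = 0 := by linarith
        rcases mul_eq_zero.1 this with h | h <;> linarith
      subst this
      exact Prod.ext (by rw [hx, hx']) hpq
    · have a3 : ((P (i + 1)).2 : ℝ) ≤ (P j).2 := by exact_mod_cast chain_mono hP _ j hlt hj.le
      have t1 : θ = 1 := by nlinarith
      have t2 : θ' = 0 := by nlinarith
      have t3 : i + 1 = j := by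
        by_contra hne
        have : ((P (i + 1)).2 : ℝ) < (P j).2 := by
          exact_mod_cast chain_smono hP _ j (by omega) hj.le
        rw [t1] at hy; rw [t2] at hy'; linarith
      subst t3
      refine Prod.ext ?_ hpq
      rw [hx, hx', t1, t2]; ring
  rintro p ⟨i, hi, hp⟩ q ⟨j, hj, hq⟩ hpq
  rcases le_total i j with h | h
  · exact aux i j h hj p q hp hq hpq
  · exact (aux j i h hi q p hq hp hpq.symm).symm

lemma chain_exists (hk : 0 < k) :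
    ∀ y ∈ Icc (toR (P 0)).2 (toR (P k)).2, ∃ x, (x, y) ∈ chain k P := by
  intro y hy
  classical
  have hex : ∃ i, i < k ∧ y ≤ ((P (i + 1)).2 : ℝ) :=
    ⟨k - 1, by omega, by rw [show k - 1 + 1 = k by omega]; exact hy.2⟩
  set i := Nat.find hex with hi
  obtain ⟨hik, hyi⟩ := Nat.find_spec hex
  rw [← hi] at hik hyi
  have hlow : ((P i).2 : ℝ) ≤ y := by
    rcases Nat.eq_zero_or_pos i with h0 | h0
    · rw [h0]; exact hy.1
    · have := Nat.find_min hex (show i - 1 < Nat.find hex by omega)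
      rw [show i - 1 + 1 = i by omega] at this
      push Not at this
      exact (this (by omega)).le
  have a1 : ((P i).2 : ℝ) < (P (i + 1)).2 := by exact_mod_cast hP i hik
  set θ := (y - (P i).2) / ((P (i + 1)).2 - (P i).2) with hθ
  have hd : (0 : ℝ) < (P (i + 1)).2 - (P i).2 := by linarith
  refine ⟨(1 - θ) * (P i).1 + θ * (P (i + 1)).1, i, hik, mem_seg.2 ⟨θ, ?_, ?_, rfl, ?_⟩⟩
  · exact div_nonneg (by linarith) hd.le
  · rw [hθ, div_le_one hd]; linarith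
  · simp only [toR]
    rw [hθ]; field_simp; ring

end chain

lemma chain_compact (k : ℕ) (P : ℕ → ℤ × ℤ) : IsCompact (chain k P) := by
  have : chain k P = ⋃ i ∈ Finset.range k, segment ℝ (toR (P i)) (toR (P (i + 1))) := by
    ext z; simp [chain]
  rw [this]
  refine (Finset.range k).isCompact_biUnion fun i _ => ?_
  rw [segment_eq_image]
  exact isCompact_Icc.image (by fun_prop)

lemma pt_mem_chain {k : ℕ} (P : ℕ → ℤ × ℤ) (hk : 0 < k) (i : ℕ) (hi : i ≤ k) :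
    toR (P i) ∈ chain k P := by
  rcases hi.eq_or_lt with rfl | h
  · refine ⟨i - 1, by omega, ?_⟩
    rw [show i - 1 + 1 = i by omega]
    exact right_mem_segment _ _ _
  · exact ⟨i, h, left_mem_segment _ _ _⟩

lemma chain_lower {k : ℕ} {P : ℕ → ℤ × ℤ} {m : ℤ} (h : ∀ i, i ≤ k → m ≤ (P i).1) :
    ∀ z ∈ chain k P, (m : ℝ) ≤ z.1 := by
  rintro z ⟨i, hi, hz⟩
  obtain ⟨θ, h0, h1, hx, -⟩ := mem_seg.1 hz
  have a1 : (m : ℝ) ≤ (P i).1 := by exact_mod_cast h i hi.le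
  have a2 : (m : ℝ) ≤ (P (i + 1)).1 := by exact_mod_cast h (i + 1) hi
  simp only [toR] at hx
  nlinarith

namespace FD
variable {V : Type} {E : V → V → Prop} {px py : V → ℝ} {X : V → V → ℝ → ℝ} (D : FD E px py X)
include D

/-- Two edges do not change their left-right order. -/
lemma no_swap {u v u' v' : V} (h : E u v) (h' : E u' v') {y₁ y₂ : ℝ}
    (h1 : y₁ ∈ Icc (py u) (py v)) (h1' : y₁ ∈ Icc (py u') (py v'))
    (h2 : y₂ ∈ Icc (py u) (py v)) (h2' : y₂ ∈ Icc (py u') (py v'))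
    (hlt : X u v y₁ < X u' v' y₁) : X u v y₂ ≤ X u' v' y₂ := by
  by_contra hgt
  push Not at hgt
  have hne : (u, v) ≠ (u', v') := by
    intro he
    obtain ⟨rfl, rfl⟩ := Prod.mk.inj he
    exact lt_irrefl _ hlt
  have hs : uIcc y₁ y₂ ⊆ Icc (py u) (py v) := uIcc_subset_Icc h1 h2
  have hs' : uIcc y₁ y₂ ⊆ Icc (py u') (py v') := uIcc_subset_Icc h1' h2'
  have hc : ContinuousOn (fun y => X u v y - X u' v' y) (uIcc y₁ y₂) :=
    ((D.cont u v h).mono hs).sub ((D.cont u' v' h').mono hs')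
  have := intermediate_value_uIcc hc
  obtain ⟨y, hy, hy0⟩ := this (show (0 : ℝ) ∈ uIcc _ _ from
    mem_uIcc.2 (Or.inl ⟨by linarith, by linarith⟩))
  have heq : X u v y = X u' v' y := by simpa [sub_eq_zero] using hy0
  have hy1 : y ≠ y₁ := by rintro rfl; linarith
  have hy2 : y ≠ y₂ := by rintro rfl; linarith
  rcases mem_uIcc.1 hy with ⟨a, b⟩ | ⟨a, b⟩ <;>
  rcases D.nocross u v u' v' h h' hne y (hs hy) (hs' hy) heq with ⟨-, hh⟩ | ⟨-, hh⟩
  · exact hy1 (le_antisymm (hh ▸ h1.1) a)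
  · exact hy2 (le_antisymm b (hh ▸ h2.2))
  · exact hy2 (le_antisymm (hh ▸ h2.1) a)
  · exact hy1 (le_antisymm b (hh ▸ h1.2))

end FD

end Pool.Agent.MP_9caa86_co.H16
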