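import Mathlib

set_option autoImplicit false

namespace Pool.Agent.MP_9caa86_co.H16

/-- A bipartite DAG: every edge goes from a vertex of the set `S` to a vertex outside `S`. -/
def IsBipDAG {V : Type} (E : V → V → Prop) : Prop :=
  ∃ S : Set V, ∀ u v, E u v → u ∈ S ∧ v ∉ S

/-- Planarity of a drawing: `pos` places the vertices, `C u v` is the point set of the edge. -/
def Planar {V : Type} (E : V → V → Prop) (pos : V → ℝ × ℝ) (C : V → V → Set (ℝ × ℝ)) : Prop :=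
  Function.Injective pos ∧
  (∀ u v w, E u v → pos w ∈ C u v → w = u ∨ w = v) ∧
  (∀ u v u' v', E u v → E u' v' → (u, v) ≠ (u', v') → ∀ p, p ∈ C u v → p ∈ C u' v' →
    ∃ w, (w = u ∨ w = v) ∧ (w = u' ∨ w = v') ∧ p = pos w)

/-- The digraph has a planar drawing with continuous edge curves of strictly increasing height. -/
def UpwardPlanar {V : Type} (E : V → V → Prop) : Prop :=
  ∃ (pos : V → ℝ × ℝ) (γ : V → V → ℝ → ℝ × ℝ),
    (∀ u v, E u v → ContinuousOn (γ u v) (Set.Icc 0 1) ∧ γ u v 0 = pos u ∧ γ u v 1 = pos v ∧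
      StrictMonoOn (fun τ => (γ u v τ).2) (Set.Icc 0 1)) ∧
    Planar E pos (fun u v => γ u v '' Set.Icc 0 1)

/-- A grid point as a point of the plane. -/
def toR (p : ℤ × ℤ) : ℝ × ℝ := ((p.1 : ℝ), (p.2 : ℝ))

/-- The polygonal chain through the grid points `P 0, ..., P k`. -/
def chain (k : ℕ) (P : ℕ → ℤ × ℤ) : Set (ℝ × ℝ) :=
  {z | ∃ i, i < k ∧ z ∈ segment ℝ (toR (P i)) (toR (P (i + 1)))}

/-- There is an upward planar poly-line grid drawing inside a `W` by `H` axis-parallel box. -/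
def PolyDrawingIn {V : Type} (E : V → V → Prop) (W H : ℕ) : Prop :=
  ∃ (pos : V → ℤ × ℤ) (k : V → V → ℕ) (P : V → V → ℕ → ℤ × ℤ) (a b : ℤ),
    (∀ u v, E u v → P u v 0 = pos u ∧ P u v (k u v) = pos v ∧
      ∀ i, i < k u v → (P u v i).2 < (P u v (i + 1)).2) ∧
    Planar E (fun v => toR (pos v)) (fun u v => chain (k u v) (P u v)) ∧
    (∀ v, pos v ∈ Set.Icc a (a + W) ×ˢ Set.Icc b (b + H)) ∧
    (∀ u v, E u v → ∀ i, i ≤ k u v → P u v i ∈ Set.Icc a (a + W) ×ˢ Set.Icc b (b + H))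

end Pool.Agent.MP_9caa86_co.H16
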