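import Pool.Agent.MP_9caa86_co.H16.Lower

set_option autoImplicit false

open Set

namespace Pool.Agent.MP_9caa86_co.H16

/-- The example graph on natural numbers. -/
def EN (u v : ℕ) : Prop := u % 4 < 2 ∧ 2 ≤ v % 4 ∧ (u / 4 = v / 4 ∨ u / 4 = v / 4 + 1)

/-- Level, sign and position of a vertex. -/
def lv (u : ℕ) : ℝ := ((u / 4 : ℕ) : ℝ) + 1

def sg (u : ℕ) : ℝ := if u % 2 = 0 then 1 else -1

def posN (u : ℕ) : ℝ × ℝ :=
  if u % 4 < 2 then (-(sg u) * (2 * lv u), -(2 * lv u)) else (0, sg u * lv u)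

lemma lv_pos (u : ℕ) : 1 ≤ lv u := by
  unfold lv; have : (0 : ℝ) ≤ ((u / 4 : ℕ) : ℝ) := by positivity
  linarith

lemma sg_cases (u : ℕ) : (u % 2 = 0 ∧ sg u = 1) ∨ (u % 2 = 1 ∧ sg u = -1) := by
  unfold sg
  rcases Nat.mod_two_eq_zero_or_one u with h | h <;> simp [h]

lemma lv_inj {u v : ℕ} (h : lv u = lv v) : u / 4 = v / 4 := by
  unfold lv at h
  have : ((u / 4 : ℕ) : ℝ) = ((v / 4 : ℕ) : ℝ) := by linarith
  exact_mod_cast this

lemma lv_lt {u v : ℕ} (h : u / 4 < v / 4) : lv u + 1 ≤ lv v := by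
  unfold lv
  have : ((u / 4 + 1 : ℕ) : ℝ) ≤ ((v / 4 : ℕ) : ℝ) := by exact_mod_cast h
  push_cast at this ⊢
  linarith

lemma lv_edge {u v : ℕ} (h : EN u v) : lv u - 1 ≤ lv v ∧ lv v ≤ lv u := by
  unfold lv
  rcases h.2.2 with h | h <;> rw [h] <;> push_cast <;> constructor <;> linarith

lemma src_eq {u u' : ℕ} (h : u % 4 < 2) (h' : u' % 4 < 2) (hs : sg u = sg u') (hl : lv u = lv u') :
    u = u' := by
  have := lv_inj hl
  rcases sg_cases u with ⟨a, b⟩ | ⟨a, b⟩ <;> rcases sg_cases u' with ⟨a', b'⟩ | ⟨a', b'⟩ <;>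
  first | omega | (rw [b, b'] at hs; norm_num at hs)

lemma snk_eq {v v' : ℕ} (h : 2 ≤ v % 4) (h' : 2 ≤ v' % 4) (hc : sg v * lv v = sg v' * lv v') :
    v = v' := by
  have p := lv_pos v
  have p' := lv_pos v'
  rcases sg_cases v with ⟨a, b⟩ | ⟨a, b⟩ <;> rcases sg_cases v' with ⟨a', b'⟩ | ⟨a', b'⟩ <;>
  rw [b, b'] at hc
  · have := lv_inj (u := v) (v := v') (by linarith); omega
  · linarith
  · linarith
  · have := lv_inj (u := v) (v := v') (by linarith); omega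

lemma posN_inj : Function.Injective posN := by
  intro u v h
  have p := lv_pos u
  have p' := lv_pos v
  unfold posN at h
  split_ifs at h with a b b
  · simp only [Prod.mk.injEq] at h
    have hl : lv u = lv v := by linarith [h.2]
    refine src_eq a b ?_ hl
    have := h.1
    rw [hl] at this
    have h2 : (0 : ℝ) < 2 * lv v := by linarith
    have := mul_right_cancel₀ h2.ne' this
    linarith
  · simp only [Prod.mk.injEq] at h
    rcases sg_cases u with ⟨-, c⟩ | ⟨-, c⟩ <;> rw [c] at h <;> linarith [h.1]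
  · simp only [Prod.mk.injEq] at h
    rcases sg_cases v with ⟨-, c⟩ | ⟨-, c⟩ <;> rw [c] at h <;> linarith [h.1]
  · simp only [Prod.mk.injEq] at h
    exact snk_eq (by omega) (by omega) h.2

/-- Straight edges. -/
def gamN (u v : ℕ) (τ : ℝ) : ℝ × ℝ :=
  (-(sg u) * (2 * lv u) * (1 - τ), -(2 * lv u) * (1 - τ) + sg v * lv v * τ)

lemma gam_zero {u v : ℕ} (h : EN u v) : gamN u v 0 = posN u := by
  simp [gamN, posN, h.1]

lemma gam_one {u v : ℕ} (h : EN u v) : gamN u v 1 = posN v := by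
  have : ¬ v % 4 < 2 := by have := h.2.1; omega
  simp [gamN, posN, this]

lemma gam_cross_aux {u v u' v' : ℕ} (h : EN u v) (h' : EN u' v') {τ τ' : ℝ}
    (h0 : 0 ≤ τ) (h1 : τ ≤ 1) (h0' : 0 ≤ τ') (h1' : τ' ≤ 1) (hlt : u / 4 < u' / 4)
    (e1 : lv u * (1 - τ) = lv u' * (1 - τ')) (e2 : sg v * lv v * τ = sg v' * lv v' * τ') :
    τ = 1 ∧ τ' = 1 := by
  have a1 := lv_lt hlt
  have a2 := lv_edge h
  have a3 := lv_edge h'
  have p := lv_pos u
  have q := lv_pos v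
  have q' := lv_pos v'
  have e3 : lv v * τ = lv v' * τ' := by
    rcases sg_cases v with ⟨-, b⟩ | ⟨-, b⟩ <;> rcases sg_cases v' with ⟨-, b'⟩ | ⟨-, b'⟩ <;>
    rw [b, b'] at e2 <;> nlinarith [mul_nonneg (by linarith : 0 ≤ lv v) h0,
      mul_nonneg (by linarith : 0 ≤ lv v') h0']
  have t1 : τ' ≤ τ := by
    by_contra hh
    push Not at hh
    nlinarith
  have t2 : τ' = 1 := by nlinarith
  exact ⟨le_antisymm h1 (t2 ▸ t1), t2⟩

lemma gam_cross {u v u' v' : ℕ} (h : EN u v) (h' : EN u' v') {τ τ' : ℝ}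
    (h0 : 0 ≤ τ) (h1 : τ ≤ 1) (h0' : 0 ≤ τ') (h1' : τ' ≤ 1) (e : gamN u v τ = gamN u' v' τ') :
    (u = u' ∧ v = v') ∨ (u = u' ∧ τ = 0) ∨ (v = v' ∧ τ = 1) := by
  simp only [gamN, Prod.mk.injEq] at e
  obtain ⟨ex, ey⟩ := e
  have p := lv_pos u
  have p' := lv_pos u'
  have fin : τ = 1 ∧ τ' = 1 → v = v' ∧ τ = 1 := by
    rintro ⟨rfl, rfl⟩
    exact ⟨snk_eq h.2.1 h'.2.1 (by linarith), rfl⟩
  by_cases hs : sg u = sg u'
  · have e1 : lv u * (1 - τ) = lv u' * (1 - τ') := by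
      rw [← hs] at ex
      rcases sg_cases u with ⟨-, b⟩ | ⟨-, b⟩ <;> rw [b] at ex <;> linarith
    have e2 : sg v * lv v * τ = sg v' * lv v' * τ' := by linarith
    rcases lt_trichotomy (u / 4) (u' / 4) with c | c | c
    · exact Or.inr (Or.inr (fin (gam_cross_aux h h' h0 h1 h0' h1' c e1 e2)))
    · have hl : lv u = lv u' := by simp [lv, c]
      have huu := src_eq h.1 h'.1 hs hl
      have ht : τ = τ' := by
        rw [← hl] at e1
        have := mul_left_cancel₀ (by linarith : lv u ≠ 0) e1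
        linarith
      subst ht
      by_cases h00 : τ = 0
      · exact Or.inr (Or.inl ⟨huu, h00⟩)
      · exact Or.inl ⟨huu, snk_eq h.2.1 h'.2.1 (mul_right_cancel₀ h00 e2)⟩
    · exact Or.inr (Or.inr (fin (gam_cross_aux h' h h0' h1' h0 h1 c e1.symm e2.symm).symm))
  · refine Or.inr (Or.inr (fin ?_))
    have m1 := mul_nonneg (by linarith : 0 ≤ lv u) (by linarith : 0 ≤ 1 - τ)
    have m2 := mul_nonneg (by linarith : 0 ≤ lv u') (by linarith : 0 ≤ 1 - τ')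
    rcases sg_cases u with ⟨-, b⟩ | ⟨-, b⟩ <;> rcases sg_cases u' with ⟨-, b'⟩ | ⟨-, b'⟩ <;>
    rw [b, b'] at ex hs
    · exact absurd rfl hs
    · constructor <;> nlinarith
    · constructor <;> nlinarith
    · exact absurd rfl hs

lemma gam_avoid {u v : ℕ} (h : EN u v) (w : ℕ) {τ : ℝ} (h0 : 0 ≤ τ) (h1 : τ ≤ 1)
    (e : gamN u v τ = posN w) : w = u ∨ w = v := by
  by_cases hw : w % 4 < 2
  · have h' : EN w (4 * (w / 4) + 2) := ⟨hw, by omega, Or.inl (by omega)⟩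
    rw [← gam_zero h'] at e
    rcases gam_cross h' h le_rfl zero_le_one h0 h1 e.symm with c | c | c
    · exact Or.inl c.1
    · exact Or.inl c.1
    · exact absurd c.2 zero_ne_one
  · have h' : EN (4 * (w / 4)) w := ⟨by omega, by omega, Or.inl (by omega)⟩
    rw [← gam_one h'] at e
    rcases gam_cross h' h zero_le_one le_rfl h0 h1 e.symm with c | c | c
    · exact Or.inr c.2
    · exact absurd c.2 one_ne_zero
    · exact Or.inr c.1

lemma ex_bip (n : ℕ) : IsBipDAG fun u v : Fin n => EN u v :=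
  ⟨{u | (u : ℕ) % 4 < 2}, fun u v h => ⟨h.1, by have := h.2.1; simp only [mem_ofPred_eq]; omega⟩⟩

lemma ex_upward (n : ℕ) : UpwardPlanar fun u v : Fin n => EN u v := by
  refine ⟨fun u => posN u, fun u v => gamN u v, fun u v h => ⟨?_, gam_zero h, gam_one h, ?_⟩,
    fun u v h => Fin.ext (posN_inj h), ?_, ?_⟩
  · unfold gamN; fun_prop
  · intro τ _ τ' _ hlt
    have a := lv_edge h
    have p := lv_pos (u : ℕ)
    simp only [gamN]
    rcases sg_cases (v : ℕ) with ⟨-, b⟩ | ⟨-, b⟩ <;> rw [b] <;> nlinarith [lv_pos (v : ℕ)]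
  · rintro u v w h ⟨τ, hτ, e⟩
    rcases gam_avoid h w hτ.1 hτ.2 e with c | c
    · exact Or.inl (Fin.ext c)
    · exact Or.inr (Fin.ext c)
  · rintro u v u' v' h h' hne p ⟨τ, hτ, rfl⟩ ⟨τ', hτ', e⟩
    rcases gam_cross h h' hτ.1 hτ.2 hτ'.1 hτ'.2 e.symm with c | ⟨c, rfl⟩ | ⟨c, rfl⟩
    · exact absurd (Prod.ext (Fin.ext c.1) (Fin.ext c.2)) hne
    · exact ⟨u, Or.inl rfl, Or.inl (Fin.ext c), gam_zero h⟩
    · exact ⟨v, Or.inr rfl, Or.inr (Fin.ext c), gam_one h⟩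

lemma ex_lower (n : ℕ) (hn : 0 < n) {W H : ℕ} (h : PolyDrawingIn (fun u v : Fin n => EN u v) W H) :
    n / 4 ≤ 2 * W + 4 ∧ n / 4 ≤ 2 * H + 4 := by
  let f : ℕ → Fin n := fun m => ⟨m % n, Nat.mod_lt _ hn⟩
  have hf : ∀ m, m < n → (f m : ℕ) = m := fun m hm => Nat.mod_eq_of_lt hm
  have T : Tower (fun u v : Fin n => EN u v) (n / 4) (fun i => f (4 * i)) (fun i => f (4 * i + 1))
      (fun i => f (4 * i + 2)) (fun i => f (4 * i + 3)) (fun u => u) := by
    constructor <;> intro i hi <;> (try simp only [EN]) <;> (repeat rw [hf _ (by omega)]) <;> omega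
  exact T.lower (ex_bip n) h

end Pool.Agent.MP_9caa86_co.H16
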