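import Pool.Agent.MP_9caa86_co.H16.Parity

set_option autoImplicit false

open Set Filter Topology

namespace Pool.Agent.MP_9caa86_co.H16

/-- A tower of `k` four-cycles with two connecting edges between consecutive levels. -/
structure Tower {V : Type} (E : V → V → Prop) (k : ℕ) (l r T B : ℕ → V) (code : V → ℕ) : Prop where
  cl : ∀ i, i < k → code (l i) = 4 * i
  cr : ∀ i, i < k → code (r i) = 4 * i + 1
  cT : ∀ i, i < k → code (T i) = 4 * i + 2
  cB : ∀ i, i < k → code (B i) = 4 * i + 3
  lT : ∀ i, i < k → E (l i) (T i)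
  lB : ∀ i, i < k → E (l i) (B i)
  rT : ∀ i, i < k → E (r i) (T i)
  rB : ∀ i, i < k → E (r i) (B i)
  up1 : ∀ i, i + 1 < k → E (l (i + 1)) (T i)
  up2 : ∀ i, i + 1 < k → E (r (i + 1)) (B i)

/-- The four-cycle at level `i`. -/
def cyc {V : Type} (l r T B : ℕ → V) (i : ℕ) : List (V × V) :=
  [(l i, T i), (r i, T i), (l i, B i), (r i, B i)]

namespace Tower
variable {V : Type} {E : V → V → Prop} {px py : V → ℝ} {X : V → V → ℝ → ℝ}
  {k : ℕ} {l r T B : ℕ → V} {code : V → ℕ}

lemma ne_of_code {u v : V} (h : code u ≠ code v) : u ≠ v := fun e => h (congrArg code e)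

lemma cyc_even (i : ℕ) : FD.EvenL (cyc l r T B i) := by
  intro g
  have two : (2 : ZMod 2) = 0 := rfl
  simp only [cyc, List.map_cons, List.map_nil, List.sum_cons, List.sum_nil]
  linear_combination two * (g (l i) + g (r i) + g (T i) + g (B i))

lemma cyc_edge (W : Tower E k l r T B code) {i : ℕ} (hi : i < k) :
    ∀ e ∈ cyc l r T B i, E e.1 e.2 := by
  simp only [cyc, List.mem_cons, List.not_mem_nil, or_false]
  rintro e (rfl | rfl | rfl | rfl)
  exacts [W.lT i hi, W.rT i hi, W.lB i hi, W.rB i hi]

lemma cyc_avoid (W : Tower E k l r T B code) {i : ℕ} (hi : i < k) {w : V}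
    (hw : code w / 4 ≠ i) : ∀ e ∈ cyc l r T B i, w ≠ e.1 ∧ w ≠ e.2 := by
  have := W.cl i hi; have := W.cr i hi; have := W.cT i hi; have := W.cB i hi
  simp only [cyc, List.mem_cons, List.not_mem_nil, or_false]
  rintro e (rfl | rfl | rfl | rfl) <;>
  exact ⟨ne_of_code (code := code) (by simp only; omega),
    ne_of_code (code := code) (by simp only; omega)⟩

lemma sides (W : Tower E k l r T B code) (D : FD E px py X) (i : ℕ) (hi : i + 2 < k) :
    FD.par py X (cyc l r T B (i + 1)) (px (T i), py (T i)) +
      FD.par py X (cyc l r T B (i + 1)) (px (T (i + 2)), py (T (i + 2))) = 1 := by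
  have := W.cl i (by omega); have := W.cr i (by omega); have := W.cT i (by omega)
  have := W.cB i (by omega)
  have := W.cl (i + 1) (by omega); have := W.cr (i + 1) (by omega)
  have := W.cT (i + 1) (by omega); have := W.cB (i + 1) (by omega)
  have := W.cl (i + 2) (by omega); have := W.cr (i + 2) (by omega)
  have := W.cT (i + 2) (by omega); have := W.cB (i + 2) (by omega)
  have := W.cl (i + 1 + 1) (by omega); have := W.cr (i + 1 + 1) (by omega)
  have two : (2 : ZMod 2) = 0 := rfl
  have e1 := W.up1 i (by omega)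
  have e2 := W.lT (i + 1) (by omega)
  have e3 := W.lB (i + 1) (by omega)
  have e4 := W.lT i (by omega)
  have e5 := W.lB i (by omega)
  have e6 := W.up2 i (by omega)
  have e7 := W.rT (i + 1) (by omega)
  have e8 := W.rB (i + 1) (by omega)
  obtain ⟨y, h0, h1, h2, h3, hsum⟩ := D.theta e1 e2 e3
    (ne_of_code (code := code) (by omega)) (ne_of_code (code := code) (by omega))
    (ne_of_code (code := code) (by omega))
    [(l i, T i), (l i, B i), (r (i + 1), B i)] [(r (i + 1), T (i + 1))] [(r (i + 1), B (i + 1))]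
    (by
      simp only [List.mem_cons, List.not_mem_nil, or_false]
      rintro e (rfl | rfl | rfl) <;>
      exact ⟨by assumption, ne_of_code (code := code) (by simp only; omega),
        ne_of_code (code := code) (by simp only; omega)⟩)
    (by
      simp only [List.mem_cons, List.not_mem_nil, or_false]
      rintro e rfl
      exact ⟨by assumption, ne_of_code (code := code) (by simp only; omega),
        ne_of_code (code := code) (by simp only; omega)⟩)
    (by
      simp only [List.mem_cons, List.not_mem_nil, or_false]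
      rintro e rfl
      exact ⟨by assumption, ne_of_code (code := code) (by simp only; omega),
        ne_of_code (code := code) (by simp only; omega)⟩)
  set Z₂ := (l (i + 1), T i) :: [(l i, T i), (l i, B i), (r (i + 1), B i)] ++
    (l (i + 1), B (i + 1)) :: [(r (i + 1), B (i + 1))] with hZ₂
  set Z₃ := (l (i + 1), T i) :: [(l i, T i), (l i, B i), (r (i + 1), B i)] ++
    (l (i + 1), T (i + 1)) :: [(r (i + 1), T (i + 1))] with hZ₃
  have ev₂ : FD.EvenL Z₂ := by
    intro g
    simp only [hZ₂, List.cons_append, List.nil_append, List.map_cons, List.map_nil,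
      List.sum_cons, List.sum_nil]
    linear_combination two * (g (l (i + 1)) + g (T i) + g (l i) + g (B i) + g (r (i + 1)) +
      g (B (i + 1)))
  have ev₃ : FD.EvenL Z₃ := by
    intro g
    simp only [hZ₃, List.cons_append, List.nil_append, List.map_cons, List.map_nil,
      List.sum_cons, List.sum_nil]
    linear_combination two * (g (l (i + 1)) + g (T i) + g (l i) + g (B i) + g (r (i + 1)) +
      g (T (i + 1)))
  have ed₂ : ∀ e ∈ Z₂, E e.1 e.2 := by
    simp only [hZ₂, List.cons_append, List.nil_append, List.mem_cons, List.not_mem_nil, or_false]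
    rintro e (rfl | rfl | rfl | rfl | rfl | rfl) <;> assumption
  have ed₃ : ∀ e ∈ Z₃, E e.1 e.2 := by
    simp only [hZ₃, List.cons_append, List.nil_append, List.mem_cons, List.not_mem_nil, or_false]
    rintro e (rfl | rfl | rfl | rfl | rfl | rfl) <;> assumption
  have av₂ : ∀ w, (code w = 4 * i + 6 ∨ 4 * i + 8 ≤ code w) → ∀ e ∈ Z₂, w ≠ e.1 ∧ w ≠ e.2 := by
    intro w hw
    simp only [hZ₂, List.cons_append, List.nil_append, List.mem_cons, List.not_mem_nil, or_false]
    rintro e (rfl | rfl | rfl | rfl | rfl | rfl) <;>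
    exact ⟨ne_of_code (code := code) (by simp only; omega),
      ne_of_code (code := code) (by simp only; omega)⟩
  have av₃ : ∀ w, 4 * i + 7 ≤ code w → ∀ e ∈ Z₃, w ≠ e.1 ∧ w ≠ e.2 := by
    intro w hw
    simp only [hZ₃, List.cons_append, List.nil_append, List.mem_cons, List.not_mem_nil, or_false]
    rintro e (rfl | rfl | rfl | rfl | rfl | rfl) <;>
    exact ⟨ne_of_code (code := code) (by simp only; omega),
      ne_of_code (code := code) (by simp only; omega)⟩
  have s1 := D.par_snk (cyc_even (i + 1)) (W.cyc_edge (by omega)) e1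
    (W.cyc_avoid (by omega) (by omega)) h0 h1.le
  have s2 := D.par_snk ev₂ ed₂ e2 (av₂ _ (by omega)) h0 h2.le
  have s2' := D.par_ends ev₂ ed₂ (W.up1 (i + 1) (by omega)) (av₂ _ (by omega)) (av₂ _ (by omega))
  have s2'' := D.par_ends ev₂ ed₂ (W.lT (i + 2) (by omega)) (av₂ _ (by omega)) (av₂ _ (by omega))
  have s3 := D.par_snk ev₃ ed₃ e3 (av₃ _ (by omega)) h0 h3.le
  have s3' := D.par_ends ev₃ ed₃ (W.up2 (i + 1) (by omega)) (av₃ _ (by omega)) (av₃ _ (by omega))
  have s3'' := D.par_ends ev₃ ed₃ (W.rT (i + 2) (by omega)) (av₃ _ (by omega)) (av₃ _ (by omega))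
  have hc : ((l (i + 1), T (i + 1)) :: [(r (i + 1), T (i + 1))] ++
      (l (i + 1), B (i + 1)) :: [(r (i + 1), B (i + 1))]) = cyc l r T B (i + 1) := rfl
  rw [hc, s1, s2, ← s2', s2'', s3, ← s3', s3''] at hsum
  have hadd : ∀ p, FD.par py X Z₂ p + FD.par py X Z₃ p = FD.par py X (cyc l r T B (i + 1)) p := by
    intro p
    simp only [FD.par, hZ₂, hZ₃, cyc, List.cons_append, List.nil_append, List.map_cons,
      List.map_nil, List.sum_cons, List.sum_nil]
    linear_combination two * (FD.L py X (l (i + 1), T i) p + FD.L py X (l i, T i) p +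
      FD.L py X (l i, B i) p + FD.L py X (r (i + 1), B i) p)
  rw [← hadd (px (T (i + 2)), py (T (i + 2))), ← add_assoc]
  exact hsum

lemma step (W : Tower E k l r T B code) (D : FD E px py X) {i j : ℕ} (hi : i < k)
    (hj : j + 1 < k) (h1 : j ≠ i) (h2 : j + 1 ≠ i) :
    FD.par py X (cyc l r T B i) (px (T j), py (T j)) =
      FD.par py X (cyc l r T B i) (px (T (j + 1)), py (T (j + 1))) := by
  have := W.cT j (by omega); have := W.cl (j + 1) hj; have := W.cT (j + 1) hj
  rw [← D.par_ends (cyc_even i) (W.cyc_edge hi) (W.up1 j hj) (W.cyc_avoid hi (by omega))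
    (W.cyc_avoid hi (by omega)),
    D.par_ends (cyc_even i) (W.cyc_edge hi) (W.lT _ hj) (W.cyc_avoid hi (by omega))
    (W.cyc_avoid hi (by omega))]

lemma on_cyc (W : Tower E k l r T B code) (D : FD E px py X) {i j : ℕ} (hi : i < k)
    (hj : j < k) (h1 : j ≠ i) : ∀ e ∈ cyc l r T B j, ∀ y ∈ Icc (py e.1) (py e.2),
      FD.par py X (cyc l r T B i) (X e.1 e.2 y, y) =
        FD.par py X (cyc l r T B i) (px (T j), py (T j)) := by
  have := W.cl j hj; have := W.cr j hj; have := W.cT j hj; have := W.cB j hj
  have al := W.cyc_avoid (w := l j) hi (by omega)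
  have ar := W.cyc_avoid (w := r j) hi (by omega)
  have aT := W.cyc_avoid (w := T j) hi (by omega)
  have aB := W.cyc_avoid (w := B j) hi (by omega)
  have hB : FD.par py X (cyc l r T B i) (px (B j), py (B j)) =
      FD.par py X (cyc l r T B i) (px (T j), py (T j)) := by
    rw [← D.par_ends (cyc_even i) (W.cyc_edge hi) (W.lB j hj) al aB,
      D.par_ends (cyc_even i) (W.cyc_edge hi) (W.lT j hj) al aT]
  intro e he y hy
  simp only [cyc, List.mem_cons, List.not_mem_nil, or_false] at he
  rcases he with rfl | rfl | rfl | rfl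
  · exact D.par_all (cyc_even i) (W.cyc_edge hi) (W.lT j hj) al aT hy.1 hy.2
  · exact D.par_all (cyc_even i) (W.cyc_edge hi) (W.rT j hj) ar aT hy.1 hy.2
  · rw [← hB]; exact D.par_all (cyc_even i) (W.cyc_edge hi) (W.lB j hj) al aB hy.1 hy.2
  · rw [← hB]; exact D.par_all (cyc_even i) (W.cyc_edge hi) (W.rB j hj) ar aB hy.1 hy.2

/-- Every middle cycle encloses all lower levels or all higher levels. -/
lemma dichotomy (W : Tower E k l r T B code) (D : FD E px py X) (i : ℕ) (hi : i + 2 < k) :
    (∀ j, j ≤ i → FD.par py X (cyc l r T B (i + 1)) (px (T j), py (T j)) = 1) ∨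
    (∀ j, i + 2 ≤ j → j < k → FD.par py X (cyc l r T B (i + 1)) (px (T j), py (T j)) = 1) := by
  have hs := W.sides D i hi
  have key : ∀ a b : ZMod 2, a + b = 1 → a = 1 ∨ b = 1 := by decide
  rcases key _ _ hs with h | h
  · left
    have : ∀ d j, j + d = i → FD.par py X (cyc l r T B (i + 1)) (px (T j), py (T j)) = 1 := by
      intro d
      induction d with
      | zero => intro j hj; rw [show j = i by omega]; exact h
      | succ d ih =>
        intro j hj
        rw [W.step D (by omega) (by omega) (by omega) (by omega)]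
        exact ih _ (by omega)
    intro j hj
    exact this (i - j) j (by omega)
  · right
    intro j hj
    induction j, hj using Nat.le_induction with
    | base => intro _; exact h
    | succ j hj ih =>
      intro hj'
      rw [← W.step D (by omega) hj' (by omega) (by omega)]
      exact ih (by omega)

theorem lower (W : Tower E k l r T B code) (hB : IsBipDAG E) {Wd H : ℕ}
    (h : PolyDrawingIn E Wd H) : k ≤ 2 * Wd + 4 ∧ k ≤ 2 * H + 4 := by
  classical
  obtain ⟨pos, kk, P, a, b, hP, hpl, hbox, hbox'⟩ := h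
  obtain ⟨S, hS⟩ := id hB
  have hk : ∀ u v, E u v → 0 < kk u v := by
    intro u v h
    by_contra h0
    have h0' : kk u v = 0 := by omega
    obtain ⟨a1, a2, -⟩ := hP u v h
    rw [h0', a1] at a2
    have : u = v := hpl.1 (by simp only [a2])
    subst this
    exact (hS u u h).2 (hS u u h).1
  obtain ⟨X, D, hX⟩ := FD_of_sets hB _ _ hpl
    (fun u v h => by
      obtain ⟨a1, a2, a3⟩ := hP u v h
      have := chain_smono a3 0 _ (hk u v h) le_rfl
      rw [a1, a2] at this
      simp only [toR]; exact_mod_cast this)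
    (fun u v _ => chain_compact _ _)
    (fun u v h => by rw [← (hP u v h).1]; exact pt_mem_chain _ (hk u v h) 0 (Nat.zero_le _))
    (fun u v h => by rw [← (hP u v h).2.1]; exact pt_mem_chain _ (hk u v h) _ le_rfl)
    (fun u v h => by
      rw [← (hP u v h).1, ← (hP u v h).2.1]; exact chain_range (hP u v h).2.2)
    (fun u v h => by
      rw [← (hP u v h).1, ← (hP u v h).2.1]; exact chain_exists (hP u v h).2.2 (hk u v h))
    (fun u v h => chain_uniq (hP u v h).2.2)
  have hm : ∀ i, i < k → ∃ m : ℤ, (∃ e ∈ cyc l r T B i, ∃ t, t ≤ kk e.1 e.2 ∧ (P e.1 e.2 t).1 = m) ∧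
      ∀ z, (∃ e ∈ cyc l r T B i, ∃ t, t ≤ kk e.1 e.2 ∧ (P e.1 e.2 t).1 = z) → m ≤ z := by
    intro i hi
    apply Int.exists_least_of_bdd
    · refine ⟨a, ?_⟩
      rintro z ⟨e, he, t, ht, rfl⟩
      exact (hbox' _ _ (W.cyc_edge hi e he) t ht).1.1
    · exact ⟨_, (l i, T i), by simp [cyc], 0, Nat.zero_le _, rfl⟩
  choose! m hm1 hm2 using hm
  let M : ℕ → ℤ := fun i => max (pos (T i)).2 (pos (B i)).2
  have hmbox : ∀ i, i < k → m i ∈ Finset.Icc a (a + Wd) := by
    intro i hi
    obtain ⟨e, he, t, ht, hh⟩ := hm1 i hi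
    rw [← hh, Finset.mem_Icc]
    exact (hbox' _ _ (W.cyc_edge hi e he) t ht).1
  have hMbox : ∀ i, M i ∈ Finset.Icc b (b + H) := by
    intro i
    have h1 := (hbox (T i)).2
    have h2 := (hbox (B i)).2
    rw [Finset.mem_Icc]
    exact ⟨le_max_of_le_left h1.1, max_le h1.2 h2.2⟩
  have inside : ∀ i j, i < k → j < k → j ≠ i →
      FD.par (fun v => (toR (pos v)).2) X (cyc l r T B i)
        ((toR (pos (T j))).1, (toR (pos (T j))).2) = 1 → m i < m j ∧ M j < M i := by
    intro i j hi hj hne hin
    have hon := W.on_cyc D hi hj hne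
    constructor
    · obtain ⟨e, he, t, ht, hh⟩ := hm1 j hj
      have hE := W.cyc_edge hj e he
      have hmem := (hX _ _ hE _).1 (pt_mem_chain (P e.1 e.2) (hk _ _ hE) t ht)
      have h1 := hon e he _ hmem.1
      rw [hin, hmem.2] at h1
      obtain ⟨e', he', c1, c2, c3⟩ := FD.exists_of_par h1
      have hE' := W.cyc_edge hi e' he'
      have hmem' := (hX _ _ hE' (X e'.1 e'.2 (toR (P e.1 e.2 t)).2, (toR (P e.1 e.2 t)).2)).2
        ⟨⟨c1, c2.le⟩, rfl⟩
      have := chain_lower (m := m i) (fun t' ht' => hm2 i hi _ ⟨e', he', t', ht', rfl⟩) _ hmem'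
      have h3 : (m i : ℝ) < (toR (P e.1 e.2 t)).1 := lt_of_le_of_lt this c3
      simp only [toR, hh] at h3
      exact_mod_cast h3
    · have key : ∀ e ∈ cyc l r T B j, (pos e.2).2 < M i := by
        intro e he
        have hE := W.cyc_edge hj e he
        have h1 := hon e he _ ⟨(D.lt _ _ hE).le, le_rfl⟩
        rw [hin] at h1
        obtain ⟨e', he', -, c2, -⟩ := FD.exists_of_par h1
        simp only [toR] at c2
        have c2' : (pos e.2).2 < (pos e'.2).2 := by exact_mod_cast c2
        refine c2'.trans_le ?_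
        simp only [cyc, List.mem_cons, List.not_mem_nil, or_false] at he'
        rcases he' with rfl | rfl | rfl | rfl
        exacts [le_max_left _ _, le_max_left _ _, le_max_right _ _, le_max_right _ _]
      exact max_lt (key (l j, T j) (by simp [cyc])) (key (l j, B j) (by simp [cyc]))
  let I := (Finset.range (k - 2)).filter fun i => ∀ j, j ≤ i →
    FD.par (fun v => (toR (pos v)).2) X (cyc l r T B (i + 1))
      ((toR (pos (T j))).1, (toR (pos (T j))).2) = 1
  let J := (Finset.range (k - 2)).filter fun i => ∀ j, i + 2 ≤ j → j < k →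
    FD.par (fun v => (toR (pos v)).2) X (cyc l r T B (i + 1))
      ((toR (pos (T j))).1, (toR (pos (T j))).2) = 1
  have hcov : k - 2 ≤ I.card + J.card := by
    refine le_trans ?_ (Finset.card_union_le _ _)
    conv_lhs => rw [← Finset.card_range (k - 2)]
    apply Finset.card_le_card
    intro i hi
    have hi' := Finset.mem_range.1 hi
    rcases W.dichotomy D i (by omega) with h | h
    · exact Finset.mem_union_left _ (Finset.mem_filter.2 ⟨hi, h⟩)
    · exact Finset.mem_union_right _ (Finset.mem_filter.2 ⟨hi, h⟩)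
  have hI : ∀ i ∈ I, ∀ i' ∈ I, i < i' → m (i + 1) ≠ m (i' + 1) ∧ M (i + 1) ≠ M (i' + 1) := by
    intro i hi i' hi' hlt
    obtain ⟨a1, a2⟩ := Finset.mem_filter.1 hi'
    have a1' := Finset.mem_range.1 a1
    have := inside (i' + 1) (i + 1) (by omega) (by omega) (by omega) (a2 _ (by omega))
    exact ⟨this.1.ne', this.2.ne⟩
  have hJ : ∀ i ∈ J, ∀ i' ∈ J, i < i' → m (i + 1) ≠ m (i' + 1) ∧ M (i + 1) ≠ M (i' + 1) := by
    intro i hi i' hi' hlt
    obtain ⟨a1, a2⟩ := Finset.mem_filter.1 hi
    have a1' := Finset.mem_range.1 (Finset.mem_filter.1 hi').1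
    have := inside (i + 1) (i' + 1) (by omega) (by omega) (by omega) (a2 _ (by omega) (by omega))
    exact ⟨this.1.ne, this.2.ne'⟩
  have count : ∀ K : Finset ℕ, K ⊆ Finset.range (k - 2) →
      (∀ i ∈ K, ∀ i' ∈ K, i < i' → m (i + 1) ≠ m (i' + 1) ∧ M (i + 1) ≠ M (i' + 1)) →
      K.card ≤ Wd + 1 ∧ K.card ≤ H + 1 := by
    intro K hK hne
    constructor
    · have := Finset.card_le_card_of_injOn (s := K) (t := Finset.Icc a (a + Wd))
        (fun i => m (i + 1))
        (fun i hi => hmbox _ (by have := Finset.mem_range.1 (hK hi); omega))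
        (fun i hi i' hi' he => by
          rcases lt_trichotomy i i' with c | c | c
          · exact absurd he (hne i hi i' hi' c).1
          · exact c
          · exact absurd he.symm (hne i' hi' i hi c).1)
      rw [Int.card_Icc] at this
      omega
    · have := Finset.card_le_card_of_injOn (s := K) (t := Finset.Icc b (b + H))
        (fun i => M (i + 1)) (fun i _ => hMbox _)
        (fun i hi i' hi' he => by
          rcases lt_trichotomy i i' with c | c | c
          · exact absurd he (hne i hi i' hi' c).2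
          · exact c
          · exact absurd he.symm (hne i' hi' i hi c).2)
      rw [Int.card_Icc] at this
      omega
  have c1 := count I (Finset.filter_subset _ _) hI
  have c2 := count J (Finset.filter_subset _ _) hJ
  omega

end Tower

end Pool.Agent.MP_9caa86_co.H16
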