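import Pool.Agent.MP_9caa86_co.H16.Core

set_option autoImplicit false

open Set Filter Topology

namespace Pool.Agent.MP_9caa86_co.H16

namespace FD
variable {V : Type} {E : V → V → Prop} {px py : V → ℝ} {X : V → V → ℝ → ℝ}

open Classical in
/-- The edge `e` crosses the horizontal ray to the left of `p`. -/
noncomputable def L (py : V → ℝ) (X : V → V → ℝ → ℝ) (e : V × V) (p : ℝ × ℝ) : ZMod 2 :=
  if py e.1 ≤ p.2 ∧ p.2 < py e.2 ∧ X e.1 e.2 p.2 < p.1 then 1 else 0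

/-- Crossing parity of a list of edges. -/
noncomputable def par (py : V → ℝ) (X : V → V → ℝ → ℝ) (Z : List (V × V)) (p : ℝ × ℝ) : ZMod 2 :=
  (Z.map fun e => L py X e p).sum

open Classical in
/-- The vertex lies on the horizontal ray to the left of `p`. -/
noncomputable def G (px py : V → ℝ) (p : ℝ × ℝ) (w : V) : ZMod 2 :=
  if py w = p.2 ∧ px w < p.1 then 1 else 0

/-- The point is not on the edge. -/
def Off (py : V → ℝ) (X : V → V → ℝ → ℝ) (e : V × V) (p : ℝ × ℝ) : Prop :=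
  ¬ (p.2 ∈ Icc (py e.1) (py e.2) ∧ X e.1 e.2 p.2 = p.1)

/-- Every vertex has even degree. -/
def EvenL (Z : List (V × V)) : Prop := ∀ g : V → ZMod 2, (Z.map fun e => g e.1 + g e.2).sum = 0

open Classical in
lemma L_local (D : FD E px py X) {e : V × V} (h : E e.1 e.2) {p₀ : ℝ × ℝ} (ho : Off py X e p₀) :
    ∀ᶠ p in 𝓝 p₀, L py X e p = L py X e p₀ +
      (G px py p₀ e.1 + G px py p₀ e.2) * (if p.2 < p₀.2 then 1 else 0) := by
  obtain ⟨u, v⟩ := e
  simp only at h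
  have hab := D.lt u v h
  rcases lt_or_ge p₀.2 (py u) with h1 | h1
  · filter_upwards [continuous_snd.continuousAt.eventually (gt_mem_nhds h1)] with p hp
    have a1 : ¬ py u ≤ p.2 := not_le.2 hp
    have a2 : ¬ py u ≤ p₀.2 := not_le.2 h1
    have a3 : py u ≠ p₀.2 := h1.ne'
    have a4 : py v ≠ p₀.2 := (h1.trans hab).ne'
    simp [L, G, a1, a2, a3, a4]
  rcases lt_or_ge (py v) p₀.2 with h2 | h2
  · filter_upwards [continuous_snd.continuousAt.eventually (lt_mem_nhds h2)] with p hp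
    have a1 : ¬ p.2 < py v := not_lt.2 hp.le
    have a2 : ¬ p₀.2 < py v := not_lt.2 h2.le
    have a3 : py u ≠ p₀.2 := (hab.trans h2).ne
    have a4 : py v ≠ p₀.2 := h2.ne
    simp [L, G, a1, a2, a3, a4]
  have hne : X u v p₀.2 ≠ p₀.1 := fun hh => ho ⟨⟨h1, h2⟩, hh⟩
  have hc : ContinuousWithinAt (fun p : ℝ × ℝ => X u v p.2 - p.1)
      (Prod.snd ⁻¹' Icc (py u) (py v)) p₀ :=
    ((D.cont u v h _ ⟨h1, h2⟩).comp continuousWithinAt_snd (fun _ hp => hp)).sub
      continuousWithinAt_fst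
  have hev : ∀ᶠ p in 𝓝 p₀, p.2 ∈ Icc (py u) (py v) → (X u v p.2 < p.1 ↔ X u v p₀.2 < p₀.1) := by
    refine (eventually_nhdsWithin_iff (s := Prod.snd ⁻¹' Icc (py u) (py v))).1 ?_
    rcases lt_or_gt_of_ne hne with a | a
    · filter_upwards [hc.eventually (gt_mem_nhds (sub_neg.2 a))] with p hp
      exact ⟨fun _ => a, fun _ => sub_neg.1 hp⟩
    · filter_upwards [hc.eventually (lt_mem_nhds (sub_pos.2 a))] with p hp
      exact ⟨fun b => absurd (sub_pos.1 hp) (not_lt.2 b.le), fun b => absurd a (not_lt.2 b.le)⟩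
  rcases h1.eq_or_lt with h1 | h1
  · have h2' : p₀.2 < py v := h1 ▸ hab
    filter_upwards [hev, continuous_snd.continuousAt.eventually (gt_mem_nhds h2')] with p hp hp2
    have hs : X u v p₀.2 = px u := by rw [← h1]; exact D.start u v h
    have a4 : py v ≠ p₀.2 := h2'.ne'
    by_cases hy : p.2 < p₀.2
    · have a1 : ¬ py u ≤ p.2 := not_le.2 (h1 ▸ hy)
      have a6 : ¬ p₀.2 ≤ p.2 := not_le.2 hy
      by_cases hx : px u < p₀.1
      · simp only [L, G, a6, h1, hs, hx, h2', a4, hy]; simp; decide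
      · simp [L, G, a6, h1, hs, hx, h2', a4, hy]
    · have a1 : py u ≤ p.2 := h1 ▸ not_lt.1 hy
      have := hp ⟨a1, hp2.le⟩
      simp only [L, this, a1, hp2, h1.le, h2', hy]; simp
  rcases h2.eq_or_lt with h2 | h2
  · filter_upwards [hev, continuous_snd.continuousAt.eventually (lt_mem_nhds h1)] with p hp hp2
    have hs : X u v p₀.2 = px v := by rw [h2]; exact D.finish u v h
    have a3 : py u ≠ p₀.2 := h1.ne
    have a5 : ¬ p₀.2 < py v := by rw [h2]; exact lt_irrefl _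
    by_cases hy : p.2 < p₀.2
    · have a1 : p.2 < py v := h2 ▸ hy
      have := hp ⟨hp2.le, a1.le⟩
      simp only [L, G, this, hp2.le, hy, a3, hs, h2.symm]; simp
    · have a1 : ¬ p.2 < py v := h2 ▸ hy
      simp [L, a1, a5, hy]
  · filter_upwards [hev, continuous_snd.continuousAt.eventually (lt_mem_nhds h1),
      continuous_snd.continuousAt.eventually (gt_mem_nhds h2)] with p hp hp1 hp2
    have := hp ⟨hp1.le, hp2.le⟩
    have a3 : py u ≠ p₀.2 := h1.ne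
    have a4 : py v ≠ p₀.2 := h2.ne'
    simp only [L, G, this, hp1.le, hp2, h1.le, h2, a3, a4]; simp

open Classical in
lemma par_local (D : FD E px py X) {p₀ : ℝ × ℝ} : ∀ Z : List (V × V),
    (∀ e ∈ Z, E e.1 e.2 ∧ Off py X e p₀) → ∀ᶠ p in 𝓝 p₀, par py X Z p = par py X Z p₀ +
      (Z.map fun e => G px py p₀ e.1 + G px py p₀ e.2).sum * (if p.2 < p₀.2 then 1 else 0) := by
  intro Z
  induction Z with
  | nil => intro _; simp [par]
  | cons e Z ih =>
    intro h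
    filter_upwards [ih fun e he => h e (List.mem_cons_of_mem _ he),
      D.L_local (h e List.mem_cons_self).1 (h e List.mem_cons_self).2] with p h1 h2
    simp only [par, List.map_cons, List.sum_cons] at h1 ⊢
    rw [h1, h2]; ring

lemma par_const (D : FD E px py X) {Z : List (V × V)} (hZ : EvenL Z) (hE : ∀ e ∈ Z, E e.1 e.2)
    {u v : V} (h : E u v) {y₁ y₂ : ℝ} (h1 : py u ≤ y₁) (h12 : y₁ ≤ y₂) (h2 : y₂ ≤ py v)
    (ho : ∀ y ∈ Icc y₁ y₂, ∀ e ∈ Z, Off py X e (X u v y, y)) :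
    par py X Z (X u v y₁, y₁) = par py X Z (X u v y₂, y₂) := by
  refine isPreconnected_Icc.constant (f := fun y => par py X Z (X u v y, y)) ?_
    (left_mem_Icc.2 h12) (right_mem_Icc.2 h12)
  intro y hy
  have hc : ContinuousWithinAt (fun y => (X u v y, y)) (Icc y₁ y₂) y :=
    (((D.cont u v h).mono (Icc_subset_Icc h1 h2)) y hy).prodMk continuousWithinAt_id
  have := hc.eventually (D.par_local Z fun e he => ⟨hE e he, ho y hy e he⟩)
  refine tendsto_const_nhds.congr' ?_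
  filter_upwards [this] with z hz
  rw [hz, hZ]; simp

lemma off_mid (D : FD E px py X) {e : V × V} (he : E e.1 e.2) {u v : V} (h : E u v)
    (hne : (u, v) ≠ e) {y : ℝ} (h1 : py u < y) (h2 : y < py v) : Off py X e (X u v y, y) := by
  rintro ⟨a, b⟩
  rcases D.nocross u v e.1 e.2 h he hne y ⟨h1.le, h2.le⟩ a b.symm with ⟨-, c⟩ | ⟨-, c⟩
  · exact h1.ne' c
  · exact h2.ne c

lemma off_vertex (D : FD E px py X) {e : V × V} (he : E e.1 e.2) {w : V}
    (h1 : w ≠ e.1) (h2 : w ≠ e.2) : Off py X e (px w, py w) := by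
  rintro ⟨a, b⟩
  rcases D.avoid e.1 e.2 w he a b with c | c
  · exact h1 c
  · exact h2 c

lemma par_snk (D : FD E px py X) {Z : List (V × V)} (hZ : EvenL Z) (hE : ∀ e ∈ Z, E e.1 e.2)
    {u v : V} (h : E u v) (hv : ∀ e ∈ Z, v ≠ e.1 ∧ v ≠ e.2) {y : ℝ} (h1 : py u < y)
    (h2 : y ≤ py v) : par py X Z (X u v y, y) = par py X Z (px v, py v) := by
  rw [← D.finish u v h]
  refine D.par_const hZ hE h h1.le h2 le_rfl fun z hz e he => ?_
  rcases hz.2.eq_or_lt with rfl | hlt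
  · rw [D.finish u v h]; exact D.off_vertex (hE e he) (hv e he).1 (hv e he).2
  · refine D.off_mid (hE e he) h ?_ (h1.trans_le hz.1) hlt
    rintro rfl; exact (hv _ he).2 rfl

lemma par_all (D : FD E px py X) {Z : List (V × V)} (hZ : EvenL Z) (hE : ∀ e ∈ Z, E e.1 e.2)
    {u v : V} (h : E u v) (hu : ∀ e ∈ Z, u ≠ e.1 ∧ u ≠ e.2) (hv : ∀ e ∈ Z, v ≠ e.1 ∧ v ≠ e.2)
    {y : ℝ} (h1 : py u ≤ y) (h2 : y ≤ py v) :
    par py X Z (X u v y, y) = par py X Z (px v, py v) := by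
  rw [← D.finish u v h]
  refine D.par_const hZ hE h h1 h2 le_rfl fun z hz e he => ?_
  rcases hz.2.eq_or_lt with rfl | hlt
  · rw [D.finish u v h]; exact D.off_vertex (hE e he) (hv e he).1 (hv e he).2
  rcases (h1.trans hz.1).eq_or_lt with rfl | hlt'
  · rw [D.start u v h]; exact D.off_vertex (hE e he) (hu e he).1 (hu e he).2
  · refine D.off_mid (hE e he) h ?_ hlt' hlt
    rintro rfl; exact (hv _ he).2 rfl

lemma par_ends (D : FD E px py X) {Z : List (V × V)} (hZ : EvenL Z) (hE : ∀ e ∈ Z, E e.1 e.2)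
    {u v : V} (h : E u v) (hu : ∀ e ∈ Z, u ≠ e.1 ∧ u ≠ e.2) (hv : ∀ e ∈ Z, v ≠ e.1 ∧ v ≠ e.2) :
    par py X Z (px u, py u) = par py X Z (px v, py v) := by
  rw [← D.par_all hZ hE h hu hv le_rfl (D.lt u v h).le, D.start u v h]

lemma L_pair (D : FD E px py X) {s t t' : V} (h : E s t) (h' : E s t') (hne : t ≠ t') {y : ℝ}
    (h0 : py s < y) (h1 : y < py t) (h2 : y < py t') :
    L py X (s, t) (X s t' y, y) + L py X (s, t') (X s t y, y) = 1 := by
  have hd : X s t y ≠ X s t' y := by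
    intro heq
    rcases D.nocross s t s t' h h' (by simpa using hne) y ⟨h0.le, h1.le⟩ ⟨h0.le, h2.le⟩ heq
      with ⟨-, c⟩ | ⟨c, -⟩
    · exact h0.ne' c
    · exact hne c
  rcases lt_or_gt_of_ne hd with a | a
  · simp [L, h0.le, h1, h2, a, not_lt.2 a.le]
  · simp [L, h0.le, h1, h2, a, not_lt.2 a.le]

lemma par_near (D : FD E px py X) {s t : V} (h : E s t) (R : List (V × V))
    (hR : ∀ e ∈ R, E e.1 e.2 ∧ s ≠ e.1 ∧ s ≠ e.2) :
    ∀ᶠ y in 𝓝[>] (py s), par py X R (X s t y, y) = par py X R (px s, py s) := by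
  have hle : 𝓝[>] (py s) ≤ 𝓝[Icc (py s) (py t)] (py s) :=
    nhdsWithin_le_of_mem (mem_of_superset (Ioo_mem_nhdsGT (D.lt s t h)) Ioo_subset_Icc_self)
  have hc : Tendsto (fun y => (X s t y, y)) (𝓝[>] (py s)) (𝓝 (px s, py s)) := by
    have := ((D.cont s t h) _ (left_mem_Icc.2 (D.lt s t h).le)).prodMk continuousWithinAt_id
    rw [ContinuousWithinAt, D.start s t h] at this
    exact this.mono_left hle
  have := hc.eventually (D.par_local R fun e he =>
    ⟨(hR e he).1, D.off_vertex (hR e he).1 (hR e he).2.1 (hR e he).2.2⟩)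
  filter_upwards [this, self_mem_nhdsWithin] with y hy hy'
  have : ¬ y < py s := not_lt.2 (le_of_lt hy')
  simpa [this] using hy

lemma theta (D : FD E px py X) {s t₁ t₂ t₃ : V} (h1 : E s t₁) (h2 : E s t₂) (h3 : E s t₃)
    (n12 : t₁ ≠ t₂) (n13 : t₁ ≠ t₃) (n23 : t₂ ≠ t₃) (R₁ R₂ R₃ : List (V × V))
    (hR₁ : ∀ e ∈ R₁, E e.1 e.2 ∧ s ≠ e.1 ∧ s ≠ e.2)
    (hR₂ : ∀ e ∈ R₂, E e.1 e.2 ∧ s ≠ e.1 ∧ s ≠ e.2)
    (hR₃ : ∀ e ∈ R₃, E e.1 e.2 ∧ s ≠ e.1 ∧ s ≠ e.2) :
    ∃ y, py s < y ∧ y < py t₁ ∧ y < py t₂ ∧ y < py t₃ ∧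
      par py X ((s, t₂) :: R₂ ++ (s, t₃) :: R₃) (X s t₁ y, y) +
      par py X ((s, t₁) :: R₁ ++ (s, t₃) :: R₃) (X s t₂ y, y) +
      par py X ((s, t₁) :: R₁ ++ (s, t₂) :: R₂) (X s t₃ y, y) = 1 := by
  have ev := (D.par_near h1 R₂ hR₂).and ((D.par_near h1 R₃ hR₃).and
    ((D.par_near h2 R₁ hR₁).and ((D.par_near h2 R₃ hR₃).and
    ((D.par_near h3 R₁ hR₁).and ((D.par_near h3 R₂ hR₂).and
    ((eventually_mem_set.2 (Ioo_mem_nhdsGT (D.lt _ _ h1))).and
    ((eventually_mem_set.2 (Ioo_mem_nhdsGT (D.lt _ _ h2))).and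
    (eventually_mem_set.2 (Ioo_mem_nhdsGT (D.lt _ _ h3))))))))))
  obtain ⟨y, a12, a13, a21, a23, a31, a32, b1, b2, b3⟩ := ev.exists
  refine ⟨y, b1.1, b1.2, b2.2, b3.2, ?_⟩
  have c12 := D.L_pair h1 h2 n12 b1.1 b1.2 b2.2
  have c13 := D.L_pair h1 h3 n13 b1.1 b1.2 b3.2
  have c23 := D.L_pair h2 h3 n23 b1.1 b2.2 b3.2
  simp only [par, List.map_append, List.map_cons, List.sum_append, List.sum_cons] at *
  rw [a12, a13, a21, a23, a31, a32]
  have two : (2 : ZMod 2) = 0 := rfl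
  linear_combination c12 + c13 + c23 + two *
    (1 + (R₁.map fun e => L py X e (px s, py s)).sum + (R₂.map fun e => L py X e (px s, py s)).sum +
      (R₃.map fun e => L py X e (px s, py s)).sum)

lemma exists_of_par {Z : List (V × V)} {p : ℝ × ℝ} (h : par py X Z p = 1) :
    ∃ e ∈ Z, py e.1 ≤ p.2 ∧ p.2 < py e.2 ∧ X e.1 e.2 p.2 < p.1 := by
  by_contra hne
  push Not at hne
  have : par py X Z p = 0 := by
    apply List.sum_eq_zero
    intro x hx
    obtain ⟨e, he, rfl⟩ := List.mem_map.1 hx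
    unfold L
    rw [if_neg]
    rintro ⟨a, b, c⟩
    exact absurd c (not_lt.2 (hne e he a b))
  rw [this] at h
  exact zero_ne_one h

end FD

end Pool.Agent.MP_9caa86_co.H16
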