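import Pool.Agent.MP_9caa86_co.H16.Core

set_option autoImplicit false

open Set

namespace Pool.Agent.MP_9caa86_co.H16

namespace FD
variable {V : Type} {E : V → V → Prop} {px py : V → ℝ} {X : V → V → ℝ → ℝ}

/-- Leftmost edge at its source. -/
def ClsA (E : V → V → Prop) (py : V → ℝ) (X : V → V → ℝ → ℝ) (s t : V) : Prop :=
  ∀ t', E s t' → t' ≠ t → X s t (min (py t) (py t')) < X s t' (min (py t) (py t'))

/-- Leftmost edge at its sink. -/
def ClsB (E : V → V → Prop) (py : V → ℝ) (X : V → V → ℝ → ℝ) (s t : V) : Prop :=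
  ∀ s', E s' t → s' ≠ s → X s t (max (py s) (py s')) < X s' t (max (py s) (py s'))

/-- First edge to the right of the vertex `w`. -/
def ClsC (E : V → V → Prop) (px py : V → ℝ) (X : V → V → ℝ → ℝ) (s t w : V) : Prop :=
  py s < py w ∧ py w ≤ py t ∧ px w < X s t (py w) ∧
    ∀ s' t', E s' t' → (s', t') ≠ (s, t) → py s' < py w → py w ≤ py t' → px w < X s' t' (py w) →
      X s t (py w) < X s' t' (py w)

lemma classify [Fintype V] (D : FD E px py X) {s t : V} (h : E s t) :
    ClsA E py X s t ∨ ClsB E py X s t ∨ ∃ w, ClsC E px py X s t w := by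
  classical
  by_cases hA : ClsA E py X s t
  · exact Or.inl hA
  right
  unfold ClsA at hA
  push Not at hA
  obtain ⟨t₀, ht₀, hne₀, hle₀⟩ := hA
  -- a common height for all edges out of `s`
  obtain ⟨tm, htm, hmin⟩ := Finset.exists_min_image (Finset.univ.filter fun t' => E s t') py
    ⟨t, by simpa using h⟩
  simp only [Finset.mem_filter, Finset.mem_univ, true_and] at htm hmin
  set y₁ := py tm with hy₁
  have hy₁s : py s < y₁ := D.lt _ _ htm
  have hmem : ∀ t', E s t' → y₁ ∈ Icc (py s) (py t') := fun t' ht' => ⟨hy₁s.le, hmin t' ht'⟩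
  have hdist : ∀ t' t'', E s t' → E s t'' → t' ≠ t'' → ∀ y, py s < y → y ≤ py t' → y ≤ py t'' →
      X s t' y ≠ X s t'' y := by
    intro t' t'' h' h'' hne y hy hy' hy'' heq
    rcases D.nocross s t' s t'' h' h'' (by simpa using hne) y ⟨hy.le, hy'⟩ ⟨hy.le, hy''⟩ heq
      with ⟨-, hh⟩ | ⟨hh, -⟩
    · exact hy.ne' hh
    · exact hne hh
  have hleft₀ : X s t₀ y₁ < X s t y₁ := by
    have hm : py s < min (py t) (py t₀) := lt_min (D.lt _ _ h) (D.lt _ _ ht₀)
    have hlt : X s t₀ (min (py t) (py t₀)) < X s t (min (py t) (py t₀)) :=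
      lt_of_le_of_ne hle₀ (hdist _ _ ht₀ h hne₀ _ hm (min_le_right _ _) (min_le_left _ _))
    exact lt_of_le_of_ne (D.no_swap ht₀ h ⟨hm.le, min_le_right _ _⟩ ⟨hm.le, min_le_left _ _⟩
      (hmem _ ht₀) (hmem _ h) hlt) (hdist _ _ ht₀ h hne₀ _ hy₁s (hmin _ ht₀) (hmin _ h))
  -- the nearest left neighbour
  obtain ⟨f, hf, hfmax⟩ := Finset.exists_max_image
    (Finset.univ.filter fun t' => E s t' ∧ X s t' y₁ < X s t y₁) (fun t' => X s t' y₁)
    ⟨t₀, by simpa using ⟨ht₀, hleft₀⟩⟩
  simp only [Finset.mem_filter, Finset.mem_univ, true_and] at hf hfmax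
  obtain ⟨hf, hfl⟩ := hf
  have hft : f ≠ t := by rintro rfl; exact lt_irrefl _ hfl
  have hfe : ∀ y, py s < y → y ≤ py f → y ≤ py t → X s f y < X s t y := fun y a b c =>
    lt_of_le_of_ne (D.no_swap hf h (hmem _ hf) (hmem _ h) ⟨a.le, b⟩ ⟨a.le, c⟩ hfl)
      (hdist _ _ hf h hft y a b c)
  -- the candidates
  let cand : V → Prop := fun w => py s < py w ∧ py w ≤ py f ∧ py w ≤ py t ∧
    X s f (py w) ≤ px w ∧ px w ≤ X s t (py w)
  have hne : (Finset.univ.filter cand).Nonempty := by
    rcases le_total (py f) (py t) with hle | hle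
    · refine ⟨f, ?_⟩
      simp only [Finset.mem_filter, Finset.mem_univ, true_and, cand]
      refine ⟨D.lt _ _ hf, le_rfl, hle, (D.finish _ _ hf).le, ?_⟩
      rw [← D.finish _ _ hf]
      exact (hfe _ (D.lt _ _ hf) le_rfl hle).le
    · refine ⟨t, ?_⟩
      simp only [Finset.mem_filter, Finset.mem_univ, true_and, cand]
      refine ⟨D.lt _ _ h, hle, le_rfl, ?_, (D.finish _ _ h).ge⟩
      rw [← D.finish _ _ h]
      exact (hfe _ (D.lt _ _ h) hle le_rfl).le
  obtain ⟨w₀, hw₀, hw₀min⟩ := Finset.exists_min_image _ py hne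
  obtain ⟨w, hw, hwmax⟩ := Finset.exists_max_image
    (Finset.univ.filter fun w => cand w ∧ py w = py w₀) px
    ⟨w₀, by simpa using (by simpa using hw₀ : cand w₀)⟩
  simp only [Finset.mem_filter, Finset.mem_univ, true_and] at hw₀ hw₀min hw hwmax
  obtain ⟨⟨hw1, hw2, hw3, hw4, hw5⟩, hwy⟩ := hw
  have hlow : ∀ w', cand w' → py w ≤ py w' := fun w' h' => hwy ▸ hw₀min w' h'
  -- an edge squeezed between the two at the height of `w` must start at `s`
  have squeeze : ∀ s' t', E s' t' → py s' < py w → py w ≤ py t' →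
      X s f (py w) < X s' t' (py w) →
      (∀ y, y ∈ Icc (py s') (py t') → y ∈ Icc (py s) (py t) → y < py w → X s' t' y ≤ X s t y) →
      s' = s := by
    intro s' t' h' a b c d
    have hfg : ∀ y, y ∈ Icc (py s') (py t') → y ∈ Icc (py s) (py f) → X s f y ≤ X s' t' y :=
      fun y hy hy' => D.no_swap hf h' ⟨hw1.le, hw2⟩ ⟨a.le, b⟩ hy' hy c
    rcases lt_or_ge (py s) (py s') with hlt | hge
    · exfalso
      have hs' : py s' ∈ Icc (py s') (py t') := ⟨le_rfl, (D.lt _ _ h').le⟩
      have : cand s' := by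
        refine ⟨hlt, by linarith, by linarith, ?_, ?_⟩
        · rw [← D.start _ _ h']; exact hfg _ hs' ⟨hlt.le, by linarith⟩
        · rw [← D.start _ _ h']; exact d _ hs' ⟨hlt.le, by linarith⟩ a
      linarith [hlow _ this]
    · have hs' : py s ∈ Icc (py s') (py t') := ⟨hge, by linarith⟩
      have e1 := hfg _ hs' ⟨le_rfl, (D.lt _ _ hf).le⟩
      have e2 := d _ hs' ⟨le_rfl, (D.lt _ _ h).le⟩ hw1
      rw [D.start _ _ hf] at e1
      rw [D.start _ _ h] at e2
      rcases D.avoid s' t' s h' hs' (le_antisymm e2 e1) with hh | hh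
      · exact hh.symm
      · exfalso; rw [← hh] at b; linarith
  by_cases hwt : w = t
  · left
    subst hwt
    intro s' hs' hne'
    by_contra hge
    push Not at hge
    have hM : max (py s) (py s') < py w := max_lt (D.lt _ _ h) (D.lt _ _ hs')
    have hlt : X s' w (max (py s) (py s')) < X s w (max (py s) (py s')) := by
      refine lt_of_le_of_ne hge fun heq => ?_
      rcases D.nocross s' w s w hs' h (by simpa using hne') _ ⟨le_max_right _ _, hM.le⟩
        ⟨le_max_left _ _, hM.le⟩ heq with ⟨hh, -⟩ | ⟨-, hh⟩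
      · exact hne' hh
      · exact hM.ne hh
    refine hne' (squeeze s' w hs' (D.lt _ _ hs') le_rfl ?_ fun y hy hy' _ => ?_)
    · rw [D.finish _ _ hs', ← D.finish _ _ h]
      exact hfe _ hw1 hw2 le_rfl
    · exact D.no_swap hs' h ⟨le_max_right _ _, hM.le⟩ ⟨le_max_left _ _, hM.le⟩ hy hy' hlt
  · right
    have hwlt : px w < X s t (py w) := by
      refine lt_of_le_of_ne hw5 fun heq => ?_
      rcases D.avoid s t w h ⟨hw1.le, hw3⟩ heq.symm with hh | hh
      · rw [hh] at hw1; exact lt_irrefl _ hw1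
      · exact hwt hh
    refine ⟨w, hw1, hw3, hwlt, fun s' t' h' hne' a b c => ?_⟩
    by_contra hge
    push Not at hge
    rcases hge.eq_or_lt with heq | hlt
    · rcases D.nocross s' t' s t h' h hne' _ ⟨a.le, b⟩ ⟨hw1.le, hw3⟩ heq with ⟨-, hh⟩ | ⟨h1, hh⟩
      · exact a.ne' hh
      · subst h1
        have hc : cand t' := by
          refine ⟨D.lt _ _ h, hh ▸ hw2, le_rfl, ?_, (D.finish _ _ h).ge⟩
          rw [← D.finish _ _ h]
          exact (hfe _ (D.lt _ _ h) (hh ▸ hw2) le_rfl).le
        have := hwmax t' ⟨hc, by rw [← hh, hwy]⟩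
        rw [hh, D.finish _ _ h] at hwlt
        linarith
    · have hs := squeeze s' t' h' a b (hw4.trans_lt c) fun y hy hy' _ =>
        D.no_swap h' h ⟨a.le, b⟩ ⟨hw1.le, hw3⟩ hy hy' hlt
      subst hs
      have ht' : t' ≠ t := by rintro rfl; exact hne' rfl
      have e1 : X s' t' y₁ < X s' t y₁ :=
        lt_of_le_of_ne (D.no_swap h' h ⟨a.le, b⟩ ⟨hw1.le, hw3⟩ (hmem _ h') (hmem _ h) hlt)
          (hdist _ _ h' h ht' _ hy₁s (hmin _ h') (hmin _ h))
      have e2 := hfmax t' ⟨h', e1⟩
      have hft' : f ≠ t' := by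
        rintro rfl
        linarith
      have e3 : X s' f y₁ < X s' t' y₁ :=
        lt_of_le_of_ne (D.no_swap hf h' ⟨hw1.le, hw2⟩ ⟨a.le, b⟩ (hmem _ hf) (hmem _ h')
          (hw4.trans_lt c)) (hdist _ _ hf h' hft' _ hy₁s (hmin _ hf) (hmin _ h'))
      linarith

open Classical in
lemma card_edges [Fintype V] (D : FD E px py X) :
    (Finset.univ.filter fun e : V × V => E e.1 e.2).card ≤ 3 * Fintype.card V := by
  have hA : (Finset.univ.filter fun e : V × V => E e.1 e.2 ∧ ClsA E py X e.1 e.2).card ≤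
      Fintype.card V := by
    rw [← Finset.card_univ]
    refine Finset.card_le_card_of_injOn Prod.fst (fun _ _ => Finset.mem_univ _) ?_
    rintro ⟨s, t⟩ h ⟨s', t'⟩ h' hs
    simp only [Finset.coe_filter, Finset.mem_univ, true_and, mem_ofPred_eq] at h h' hs
    subst hs
    by_contra hne
    have hne' : t ≠ t' := by rintro rfl; exact hne rfl
    have e1 := h.2 t' h'.1 hne'.symm
    have e2 := h'.2 t h.1 hne'
    rw [min_comm] at e2
    linarith
  have hB : (Finset.univ.filter fun e : V × V => E e.1 e.2 ∧ ClsB E py X e.1 e.2).card ≤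
      Fintype.card V := by
    rw [← Finset.card_univ]
    refine Finset.card_le_card_of_injOn Prod.snd (fun _ _ => Finset.mem_univ _) ?_
    rintro ⟨s, t⟩ h ⟨s', t'⟩ h' hs
    simp only [Finset.coe_filter, Finset.mem_univ, true_and, mem_ofPred_eq] at h h' hs
    subst hs
    by_contra hne
    have hne' : s ≠ s' := by rintro rfl; exact hne rfl
    have e1 := h.2 s' h'.1 hne'.symm
    have e2 := h'.2 s h.1 hne'
    rw [max_comm] at e2
    linarith
  have hC : (Finset.univ.filter fun e : V × V =>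
      E e.1 e.2 ∧ ∃ w, ClsC E px py X e.1 e.2 w).card ≤ Fintype.card V := by
    rw [← Finset.card_univ]
    let g : V × V → V := fun e => if h : ∃ w, ClsC E px py X e.1 e.2 w then h.choose else e.1
    refine Finset.card_le_card_of_injOn g (fun _ _ => Finset.mem_univ _) ?_
    rintro ⟨s, t⟩ h ⟨s', t'⟩ h' hs
    simp only [Finset.coe_filter, Finset.mem_univ, true_and, mem_ofPred_eq] at h h'
    simp only [g, dif_pos h.2, dif_pos h'.2] at hs
    have c1 := h.2.choose_spec
    have c2 := h'.2.choose_spec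
    rw [hs] at c1
    by_contra hne
    have e1 := c1.2.2.2 s' t' h'.1 (Ne.symm hne) c2.1 c2.2.1 c2.2.2.1
    have e2 := c2.2.2.2 s t h.1 hne c1.1 c1.2.1 c1.2.2.1
    linarith
  have hsub : (Finset.univ.filter fun e : V × V => E e.1 e.2) ⊆
      ((Finset.univ.filter fun e : V × V => E e.1 e.2 ∧ ClsA E py X e.1 e.2) ∪
      (Finset.univ.filter fun e : V × V => E e.1 e.2 ∧ ClsB E py X e.1 e.2)) ∪
      (Finset.univ.filter fun e : V × V => E e.1 e.2 ∧ ∃ w, ClsC E px py X e.1 e.2 w) := by
    intro e he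
    simp only [Finset.mem_filter, Finset.mem_univ, true_and, Finset.mem_union] at he ⊢
    rcases D.classify he with h | h | h
    · exact Or.inl (Or.inl ⟨he, h⟩)
    · exact Or.inl (Or.inr ⟨he, h⟩)
    · exact Or.inr ⟨he, h⟩
  have := (Finset.card_le_card hsub).trans ((Finset.card_union_le _ _).trans
    (Nat.add_le_add_right (Finset.card_union_le _ _) _))
  omega

lemma exists_levels [Fintype V] (py : V → ℝ) : ∃ (q : ℕ) (hh : ℕ → ℝ) (lev : V → ℕ),
    q ≤ Fintype.card V ∧ (∀ v, lev v < q) ∧ (∀ v, hh (lev v) = py v) ∧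
    ∀ i j, i < j → j < q → hh i < hh j := by
  classical
  set Y := Finset.univ.image py with hY
  let h := Y.orderEmbOfFin rfl
  have hr : ∀ v, ∃ j : Fin Y.card, h j = py v := by
    intro v
    have : py v ∈ Set.range h := by
      rw [Finset.range_orderEmbOfFin]; simp [hY]
    exact this
  choose lev hlev using hr
  refine ⟨Y.card, fun j => if hj : j < Y.card then h ⟨j, hj⟩ else 0, fun v => lev v,
    Finset.card_image_le.trans (by simp), fun v => (lev v).2, fun v => ?_, fun i j hij hj => ?_⟩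
  · simp [hlev]
  · simp only [dif_pos hj, dif_pos (hij.trans hj)]
    exact h.strictMono (by simpa using hij)

theorem upper [Fintype V] (D : FD E px py X) :
    PolyDrawingIn E (4 * Fintype.card V) (Fintype.card V) := by
  classical
  obtain ⟨q, hh, lev, hq, hlq, hlev, hmono⟩ := exists_levels py
  have hmono' : ∀ i j, i ≤ j → j < q → hh i ≤ hh j := fun i j hij hj => by
    rcases hij.eq_or_lt with rfl | h
    · exact le_rfl
    · exact (hmono _ _ h hj).le
  have hlevlt : ∀ u v, E u v → lev u < lev v := by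
    intro u v h
    by_contra hge
    have := hmono' _ _ (not_lt.1 hge) (hlq u)
    rw [hlev, hlev] at this
    linarith [D.lt u v h]
  have hinj : ∀ i j, i < q → j < q → hh i = hh j → i = j := by
    intro i j hi hj h
    rcases lt_trichotomy i j with a | a | a
    · exact absurd h (hmono _ _ a hj).ne
    · exact a
    · exact absurd h (hmono _ _ a hi).ne'
  have hrange : ∀ u v j, lev u ≤ j → j ≤ lev v → hh j ∈ Icc (py u) (py v) := by
    intro u v j h1 h2
    rw [← hlev, ← hlev]
    exact ⟨hmono' _ _ h1 (h2.trans_lt (hlq v)), hmono' _ _ h2 (hlq v)⟩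
  set Ed := Finset.univ.filter fun e : V × V => E e.1 e.2 with hEd
  let 𝒳 : ℕ → Finset ℝ := fun j => Finset.univ.image px ∪ Ed.image fun e => X e.1 e.2 (hh j)
  let R : ℕ → ℝ → ℕ := fun j x => ((𝒳 j).filter (· < x)).card
  have hRle : ∀ j x, R j x ≤ 4 * Fintype.card V := by
    intro j x
    have h1 : (𝒳 j).card ≤ Fintype.card V + Ed.card :=
      (Finset.card_union_le _ _).trans (add_le_add (Finset.card_image_le.trans (by simp))
        Finset.card_image_le)
    have h2 : Ed.card ≤ 3 * Fintype.card V := by convert D.card_edges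
    have h3 : R j x ≤ (𝒳 j).card := Finset.card_filter_le _ _
    omega
  have hRmono : ∀ j x x', x ≤ x' → R j x ≤ R j x' := by
    intro j x x' h
    apply Finset.card_le_card
    intro z hz
    simp only [Finset.mem_filter] at hz ⊢
    exact ⟨hz.1, hz.2.trans_le h⟩
  have hRs : ∀ j x x', x ∈ 𝒳 j → x < x' → R j x < R j x' := by
    intro j x x' hx h
    apply Finset.card_lt_card
    refine ⟨fun z hz => ?_, fun hs => ?_⟩
    · simp only [Finset.mem_filter] at hz ⊢
      exact ⟨hz.1, hz.2.trans h⟩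
    · have := hs (Finset.mem_filter.2 ⟨hx, h⟩)
      simp at this
  have hRinj : ∀ j x x', x ∈ 𝒳 j → x' ∈ 𝒳 j → R j x = R j x' → x = x' := by
    intro j x x' hx hx' h
    rcases lt_trichotomy x x' with a | a | a
    · exact absurd h (hRs _ _ _ hx a).ne
    · exact a
    · exact absurd h (hRs _ _ _ hx' a).ne'
  have hm1 : ∀ j v, px v ∈ 𝒳 j := fun j v => by simp [𝒳]
  have hm2 : ∀ j u v, E u v → X u v (hh j) ∈ 𝒳 j := fun j u v h => by
    simp only [𝒳, Finset.mem_union, Finset.mem_image]
    exact Or.inr ⟨(u, v), by simpa [hEd] using h, rfl⟩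
  let pos : V → ℤ × ℤ := fun v => (R (lev v) (px v), lev v)
  let P : V → V → ℕ → ℤ × ℤ := fun u v i =>
    (R (lev u + i) (X u v (hh (lev u + i))), ((lev u + i : ℕ) : ℤ))
  have cases : ∀ u v, E u v → ∀ z ∈ chain (lev v - lev u) (P u v),
      (∃ j, lev u ≤ j ∧ j ≤ lev v ∧ z.1 = R j (X u v (hh j)) ∧ z.2 = j) ∨
      (∃ (j : ℕ) (θ : ℝ), lev u ≤ j ∧ j + 1 ≤ lev v ∧ 0 < θ ∧ θ < 1 ∧
        z.1 = (1 - θ) * R j (X u v (hh j)) + θ * R (j + 1) (X u v (hh (j + 1))) ∧
        z.2 = j + θ) := by
    rintro u v h z ⟨i, hi, hz⟩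
    obtain ⟨θ, h0, h1, hx, hy⟩ := mem_seg.1 hz
    simp only [toR, P, Int.cast_natCast] at hx hy
    rcases h0.eq_or_lt with rfl | h0
    · exact Or.inl ⟨lev u + i, by omega, by omega, by simpa using hx, by simpa using hy⟩
    rcases h1.eq_or_lt with rfl | h1
    · exact Or.inl ⟨lev u + (i + 1), by omega, by omega, by simpa using hx, by simpa using hy⟩
    refine Or.inr ⟨lev u + i, θ, by omega, by omega, h0, h1, hx, ?_⟩
    rw [hy]; push_cast; ring
  have noint : ∀ (j j' : ℕ) (θ : ℝ), 0 < θ → θ < 1 → (j' : ℝ) ≠ j + θ := by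
    intro j j' θ h0 h1 h
    have a : (j : ℝ) < j' := by linarith
    have b : (j' : ℝ) < (j + 1 : ℕ) := by push_cast; linarith
    have a' : j < j' := by exact_mod_cast a
    have b' : j' < j + 1 := by exact_mod_cast b
    omega
  refine ⟨pos, fun u v => lev v - lev u, P, 0, 0, fun u v h => ⟨?_, ?_, fun i _ => ?_⟩,
    ⟨fun u v h => ?_, fun u v w h hw => ?_, fun u v u' v' h h' hne z hz hz' => ?_⟩,
    fun v => ?_, fun u v h i hi => ?_⟩
  · simp [P, pos, hlev, D.start u v h]
  · have : lev u + (lev v - lev u) = lev v := by have := hlevlt u v h; omega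
    simp only [P, pos, this, hlev, D.finish u v h]
  · simp [P]
  · simp only [toR, pos, Prod.mk.injEq, Int.cast_natCast, Nat.cast_inj] at h
    obtain ⟨h1, h2⟩ := h
    rw [h2] at h1
    exact D.inj u v (hRinj _ _ _ (hm1 _ _) (hm1 _ _) h1) (by rw [← hlev, ← hlev, h2])
  · rcases cases u v h _ hw with ⟨j, h1, h2, hx, hy⟩ | ⟨j, θ, h1, h2, h3, h4, hx, hy⟩
    · simp only [toR, pos, Int.cast_natCast, Nat.cast_inj] at hx hy
      subst hy
      have := hRinj _ _ _ (hm1 _ _) (hm2 _ u v h) hx
      rw [hlev] at this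
      exact D.avoid u v w h (hlev w ▸ hrange u v _ h1 h2) this.symm
    · simp only [toR, pos, Int.cast_natCast] at hy
      exact absurd hy (noint _ _ _ h3 h4)
  · rcases cases u v h _ hz with ⟨j, h1, h2, hx, hy⟩ | ⟨j, θ, h1, h2, h3, h4, hx, hy⟩ <;>
    rcases cases u' v' h' _ hz' with ⟨j', h1', h2', hx', hy'⟩ |
      ⟨j', θ', h1', h2', h3', h4', hx', hy'⟩
    · have hj : j = j' := by exact_mod_cast hy.symm.trans hy'
      subst hj
      have hR : R j (X u v (hh j)) = R j (X u' v' (hh j)) := by exact_mod_cast hx.symm.trans hx'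
      have heq := hRinj _ _ _ (hm2 _ u v h) (hm2 _ u' v' h') hR
      have hjq : j < q := h2.trans_lt (hlq v)
      rcases D.nocross u v u' v' h h' hne _ (hrange u v j h1 h2) (hrange u' v' j h1' h2') heq
        with ⟨rfl, hy2⟩ | ⟨rfl, hy2⟩
      · refine ⟨u, Or.inl rfl, Or.inl rfl, ?_⟩
        have : j = lev u := hinj _ _ hjq (hlq u) (by rw [hy2, hlev])
        subst this
        refine Prod.ext ?_ ?_
        · simp [toR, pos, hx, hlev, D.start u v h]
        · simp [toR, pos, hy]
      · refine ⟨v, Or.inr rfl, Or.inr rfl, ?_⟩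
        have : j = lev v := hinj _ _ hjq (hlq v) (by rw [hy2, hlev])
        subst this
        refine Prod.ext ?_ ?_
        · simp [toR, pos, hx, hlev, D.finish u v h]
        · simp [toR, pos, hy]
    · exact absurd (hy.symm.trans hy') (noint _ _ _ h3' h4')
    · exact absurd (hy'.symm.trans hy) (noint _ _ _ h3 h4)
    · exfalso
      have hj : j = j' := by
        have e := hy.symm.trans hy'
        have a : (j : ℝ) < (j' + 1 : ℕ) := by push_cast; linarith
        have b : (j' : ℝ) < (j + 1 : ℕ) := by push_cast; linarith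
        have a' : j < j' + 1 := by exact_mod_cast a
        have b' : j' < j + 1 := by exact_mod_cast b
        omega
      subst hj
      have hθ : θ = θ' := by linarith
      subst hθ
      have r0 := hrange u v j h1 (by omega)
      have r1 := hrange u v (j + 1) (by omega) h2
      have r0' := hrange u' v' j h1' (by omega)
      have r1' := hrange u' v' (j + 1) (by omega) h2'
      have hlt : hh j < hh (j + 1) := hmono _ _ (by omega) (h2.trans_lt (hlq v))
      have e := hx.symm.trans hx'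
      have both : X u v (hh j) = X u' v' (hh j) ∧ X u v (hh (j + 1)) = X u' v' (hh (j + 1)) := by
        have key : ∀ a b c d : ℕ, a ≤ c → b ≤ d →
            (1 - θ) * (a : ℝ) + θ * b = (1 - θ) * c + θ * d → a = c ∧ b = d := by
          intro a b c d h1 h2 he
          have h1' : (a : ℝ) ≤ c := by exact_mod_cast h1
          have h2' : (b : ℝ) ≤ d := by exact_mod_cast h2
          constructor
          · have : (a : ℝ) = c := by nlinarith
            exact_mod_cast this
          · have : (b : ℝ) = d := by nlinarith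
            exact_mod_cast this
        have fin : R j (X u v (hh j)) = R j (X u' v' (hh j)) ∧
            R (j + 1) (X u v (hh (j + 1))) = R (j + 1) (X u' v' (hh (j + 1))) := by
          have ord : (X u v (hh j) ≤ X u' v' (hh j) ∧ X u v (hh (j + 1)) ≤ X u' v' (hh (j + 1))) ∨
              (X u' v' (hh j) ≤ X u v (hh j) ∧ X u' v' (hh (j + 1)) ≤ X u v (hh (j + 1))) := by
            rcases lt_trichotomy (X u v (hh j)) (X u' v' (hh j)) with a | a | a
            · exact Or.inl ⟨a.le, D.no_swap h h' r0 r0' r1 r1' a⟩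
            · rcases le_total (X u v (hh (j + 1))) (X u' v' (hh (j + 1))) with b | b
              · exact Or.inl ⟨a.le, b⟩
              · exact Or.inr ⟨a.ge, b⟩
            · exact Or.inr ⟨a.le, D.no_swap h' h r0' r0 r1' r1 a⟩
          rcases ord with ⟨a, b⟩ | ⟨a, b⟩
          · exact key _ _ _ _ (hRmono _ _ _ a) (hRmono _ _ _ b) e
          · have := key _ _ _ _ (hRmono _ _ _ a) (hRmono _ _ _ b) e.symm
            exact ⟨this.1.symm, this.2.symm⟩
        exact ⟨hRinj _ _ _ (hm2 _ u v h) (hm2 _ u' v' h') fin.1,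
          hRinj _ _ _ (hm2 _ u v h) (hm2 _ u' v' h') fin.2⟩
      have e0 := D.nocross u v u' v' h h' hne _ r0 r0' both.1
      have e1 := D.nocross u v u' v' h h' hne _ r1 r1' both.2
      rcases e0 with ⟨rfl, -⟩ | ⟨-, b⟩
      · rcases e1 with ⟨-, c⟩ | ⟨rfl, -⟩
        · linarith [r0.1]
        · exact hne rfl
      · linarith [r1.2]
  · have := hRle (lev v) (px v)
    have := hlq v
    simp only [pos, mem_prod, mem_Icc]
    refine ⟨⟨by positivity, by omega⟩, by positivity, by omega⟩
  · have := hRle (lev u + i) (X u v (hh (lev u + i)))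
    have := hlq v
    have := hlevlt u v h
    have hi' : i ≤ lev v - lev u := hi
    simp only [P, mem_prod, mem_Icc]
    refine ⟨⟨by positivity, by omega⟩, by positivity, by omega⟩

end FD

end Pool.Agent.MP_9caa86_co.H16
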